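import Pool.Agent.H29.TH.Mix
import Pool.Graph.R_seed8.H974R2.Infinite

/-!
Derivatives of the percolation probability.
-/

set_option autoImplicit false

namespace Pool.Agent.H29.TH

open H974 hiding WW
open H12S H389NS Finset Filter Topology
open Pool.Agent.NH39 (dd)
open Pool.Agent.NH39.W (Dl)
open scoped ContDiff

/-- The percolation probability as a function of a real parameter. -/
noncomputable def th (p : ℝ) : ℝ := theta (Set.projIcc 0 1 zero_le_one p)

theorem th_of (p : unitInterval) : th p = theta p := by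
  unfold th
  rw [Set.projIcc_val]

theorem arm_tendsto {p : ℝ} (h0 : 0 ≤ p) (h1 : p ≤ 1) :
    Tendsto (fun n => arm p n) atTop (𝓝 (th p)) := by
  obtain ⟨P, hP⟩ : ∃ P : unitInterval, (P : ℝ) = p := ⟨⟨p, h0, h1⟩, rfl⟩
  have ha : Antitone (fun n => arm p n) := fun n m h => arm_anti h0 h1 h
  have hb : BddBelow (Set.range (fun n => arm p n)) :=
    ⟨0, by rintro _ ⟨n, rfl⟩; exact arm_nonneg h0 h1 n⟩
  have ht := tendsto_atTop_ciInf ha hb
  have e : (⨅ n, arm p n) = th p := by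
    rw [← hP, th_of]
    apply le_antisymm
    · apply le_theta
      intro n
      rw [hP]
      exact ciInf_le hb n
    · apply le_ciInf
      intro n
      exact theta_le_arm P n
  rwa [e] at ht

/-- The mixture. -/
noncomputable def gm (p : ℝ) (M L : ℕ) (x : ℝ) : ℝ :=
  ∑ G ∈ (boxE M).powerset, (x - p) ^ G.card * Ex (fun _ => p) (boxE L) (Dl (fA L) G)

theorem gm_eq {p x : ℝ} {M L : ℕ} (h : M ≤ L) :
    gm p M L x = Ex (fun e => if e ∈ boxE M then p + (x - p) else p) (boxE L) (fA L) := by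
  unfold gm
  rw [tayU (boxE_mono h)]

theorem arm_sub {n m : ℕ} (h : n ≤ m) {F : Finset Edg} (hF : Arm m F) : Arm n F := by
  obtain ⟨v, hv, hr⟩ := hF
  have h' : (n:ℤ) ≤ m := by exact_mod_cast h
  obtain ⟨w, k1, k2, k3⟩ := first_exit (G := ↑F ∩ ↑(boxE m)) (a := -n) (b := n) (c := -n) (d := n)
    (u := (0, 0)) (v := v) (by unfold inR; simp) hr (by unfold onB at hv; omega)
  refine ⟨w, ⟨k1, k2⟩, k3.mono ?_⟩
  rintro e ⟨⟨k4, -⟩, k5⟩
  exact ⟨k4, k5⟩

theorem gm_le {p x : ℝ} {M L : ℕ} (hx : 0 ≤ x) (hxp : x ≤ p) (hp : p ≤ 1) (h : M ≤ L) :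
    arm x L ≤ gm p M L x ∧ gm p M L x ≤ arm x M := by
  have e0 : gm p M L x = Pr (fun e => if e ∈ boxE M then p + (x - p) else p) (boxE L) (Arm L) :=
    gm_eq h
  rw [e0]
  have hok : Ok (fun e : Edg => if e ∈ boxE M then p + (x - p) else p) := by
    intro e
    beta_reduce
    split_ifs
    · exact ⟨by linarith, by linarith⟩
    · exact ⟨by linarith, by linarith⟩
  constructor
  · refine Pr_mono_param (okq hx (hxp.trans hp)) hok ?_ (Arm_incr _ _)
    intro e
    split_ifs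
    · linarith
    · exact hxp
  · have h1 : Pr (fun e : Edg => if e ∈ boxE M then p + (x - p) else p) (boxE L) (Arm L) ≤
        Pr (fun e : Edg => if e ∈ boxE M then p + (x - p) else p) (boxE L) (Arm M) :=
      Pr_mono hok (fun F _ hF => arm_sub h hF)
    have h2 : Pr (fun e : Edg => if e ∈ boxE M then p + (x - p) else p) (boxE L) (Arm M) =
        Pr (fun e : Edg => if e ∈ boxE M then p + (x - p) else p) (boxE M) (Arm M) :=
      Pr_local (S := boxE L) (S' := boxE M) (A := Arm M) (boxE_mono h)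
        (fun F _ => Arm_local (n := M) (F := F) (S := boxE M) (Finset.Subset.refl (boxE M)))
    refine h1.trans (le_of_eq ?_)
    rw [h2]
    unfold Pr arm Pr
    apply Ex_cq
    intro e he
    rw [if_pos he]
    ring

theorem vt_le_one {p : ℝ} (h1 : 1/2 ≤ p) (h2 : p ≤ 1) {n : ℕ} (hn : 1 ≤ n) : vt p n ≤ 1 := by
  rw [← vt_one h1 h2]
  exact vt_anti le_rfl hn

theorem vt_lim {p : ℝ} (h1 : 1/2 ≤ p) :
    Tendsto (fun m : ℕ => vt p (2 * (m + 1))) atTop (𝓝 ((p - 1/2) ^ (5/36 : ℝ))) := by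
  have h2 : Tendsto (fun m : ℕ => (((2 * (m + 1) : ℕ) : ℝ)) ^ (-(5/48) : ℝ)) atTop (𝓝 0) := by
    have h3 : Tendsto (fun m : ℕ => 2 * (m + 1)) atTop atTop := by
      apply tendsto_atTop_mono (f := fun m : ℕ => m) (fun m => by omega) tendsto_id
    have h4 : Tendsto (fun m : ℕ => ((2 * (m + 1) : ℕ) : ℝ)) atTop atTop :=
      tendsto_natCast_atTop_atTop.comp h3
    exact (tendsto_rpow_neg_atTop (by norm_num : (0:ℝ) < 5/48)).comp h4
  have h3 := h2.max (tendsto_const_nhds (x := (p - 1/2) ^ (5/36 : ℝ)))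
  rw [max_eq_right (Real.rpow_nonneg (by linarith) _)] at h3
  exact h3

/-- The derivatives, below `p`. -/
theorem der_local : ∃ B : ℝ, 1 ≤ B ∧ ∀ p : ℝ, 1/2 < p → p ≤ 1 →
    ContDiffOn ℝ ∞ th (Set.Ioo (p - (p - 1/2) / (2 * B)) p) ∧
    ∀ k : ℕ, ∀ x ∈ Set.Ioo (p - (p - 1/2) / (2 * B)) p, |iteratedDeriv k th x| ≤
      k.factorial * (2 / ((p - 1/2) / B)) ^ k * (B * (p - 1/2) ^ (5/36 : ℝ)) := by
  obtain ⟨B, hB, hm⟩ := mix_sum
  refine ⟨B, hB, ?_⟩
  intro p hp1 hp2
  have hs : 0 < p - 1/2 := by linarith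
  have hB0 : 0 < B := by linarith
  obtain ⟨R, hR⟩ : ∃ R : ℝ, R = (p - 1/2) / B := ⟨_, rfl⟩
  have hR0 : 0 < R := by rw [hR]; positivity
  have eR : (p - 1/2) / (2 * B) = R / 2 := by
    rw [hR, div_div, mul_comm]
  rw [eR, ← hR]
  have hRle : R ≤ p - 1/2 := by
    rw [hR]
    exact div_le_self hs.le hB
  obtain ⟨f, hf⟩ : ∃ f : ℕ → ℝ → ℝ, f = fun m x => gm p (m + 1) (3 * (m + 1)) x := ⟨_, rfl⟩
  have hfs : ∀ m, ContDiff ℝ ∞ (f m) := by
    intro m
    rw [hf]
    unfold gm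
    fun_prop
  have hfl : ∀ x ∈ Set.Ioo (p - R / 2) p, Tendsto (fun m => f m x) atTop (𝓝 (th x)) := by
    intro x hx
    have hx0 : 0 ≤ x := by have := hx.1; linarith
    have hx1 : x ≤ 1 := hx.2.le.trans hp2
    have ha := arm_tendsto hx0 hx1
    have t1 : Tendsto (fun m : ℕ => 3 * (m + 1)) atTop atTop := by
      refine tendsto_atTop_mono (f := fun m : ℕ => m) (fun m => ?_) tendsto_id
      show m ≤ 3 * (m + 1)
      omega
    have t2 : Tendsto (fun m : ℕ => m + 1) atTop atTop := tendsto_add_atTop_nat 1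
    refine tendsto_of_tendsto_of_tendsto_of_le_of_le (ha.comp t1) (ha.comp t2) ?_ ?_
    · intro m
      rw [hf]
      exact (gm_le (M := m + 1) (L := 3 * (m + 1)) hx0 hx.2.le hp2 (by omega)).1
    · intro m
      rw [hf]
      exact (gm_le (M := m + 1) (L := 3 * (m + 1)) hx0 hx.2.le hp2 (by omega)).2
  have hfb : ∀ k m, ∀ x ∈ Set.Ioo (p - R / 2) p, |iteratedDeriv k (f m) x| ≤
      k.factorial * (2 / R) ^ k * (B * vt p (2 * (m + 1))) := by
    intro k m x hx
    have h1 := hm p hp1 hp2 (m + 1) (3 * (m + 1)) (by omega) le_rfl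
    rw [← hR] at h1
    have h2 := poly_bound (boxE (m + 1)).powerset (fun G => G.card)
      (fun G => Ex (fun _ => p) (boxE (3 * (m + 1))) (Dl (fA (3 * (m + 1))) G)) hR0 h1 k
      (w := x - p) (by rw [abs_le]; constructor <;> linarith [hx.1, hx.2])
    have h3 : iteratedDeriv k (f m) x = iteratedDeriv k (fun w => ∑ G ∈ (boxE (m + 1)).powerset,
        w ^ G.card * Ex (fun _ => p) (boxE (3 * (m + 1))) (Dl (fA (3 * (m + 1))) G)) (x - p) := by
      rw [hf]
      unfold gm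
      exact congrFun (iteratedDeriv_comp_sub_const k (fun w => ∑ G ∈ (boxE (m + 1)).powerset,
        w ^ G.card * Ex (fun _ => p) (boxE (3 * (m + 1))) (Dl (fA (3 * (m + 1))) G)) p) x
    rw [h3]
    exact h2
  have hlim := Pool.Agent.NH39.W.lim f th (p - R / 2) p
    (fun k => k.factorial * (2 / R) ^ k * B) (by linarith) hfs hfl (by
      intro k _ m x hx
      refine (hfb k m x hx).trans ?_
      apply mul_le_mul_of_nonneg_left _ (by positivity)
      exact mul_le_of_le_one_right hB0.le (vt_le_one hp1.le hp2 (by omega)))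
  refine ⟨hlim.1, fun k x hx => ?_⟩
  have t1 := (hlim.2 k x hx).abs
  have t2 : Tendsto (fun m : ℕ => (k.factorial : ℝ) * (2 / R) ^ k * (B * vt p (2 * (m + 1))))
      atTop (𝓝 (k.factorial * (2 / R) ^ k * (B * (p - 1/2) ^ (5/36 : ℝ)))) :=
    ((vt_lim hp1.le).const_mul B).const_mul _
  exact le_of_tendsto_of_tendsto' t1 t2 (fun m => hfb k m x hx)

/-- All the derivatives of the percolation probability. -/
theorem th_der : ∃ C : ℝ, 1 ≤ C ∧ ∀ x : ℝ, 1/2 < x → x < 1 → ContDiffAt ℝ ∞ th x ∧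
    ∀ k : ℕ, |iteratedDeriv k th x| ≤
      C ^ (k + 1) * k.factorial * (x - 1/2) ^ ((5:ℝ)/36 - k) := by
  obtain ⟨B, hB, hd⟩ := der_local
  have hB0 : 0 < B := by linarith
  refine ⟨2 * B, by linarith, ?_⟩
  intro x hx1 hx2
  obtain ⟨s, hs⟩ : ∃ s : ℝ, s = x - 1/2 := ⟨_, rfl⟩
  have hs0 : 0 < s := by rw [hs]; linarith
  obtain ⟨p, hp⟩ : ∃ p : ℝ, p = min 1 (x + s / (4 * B)) := ⟨_, rfl⟩
  have hsB : 0 < s / (4 * B) := by positivity
  have p1 : x < p := by rw [hp]; exact lt_min hx2 (by linarith)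
  have p2 : p ≤ 1 := by rw [hp]; exact min_le_left _ _
  have p3 : p ≤ x + s / (4 * B) := by rw [hp]; exact min_le_right _ _
  have hsB2 : s / (4 * B) ≤ s := div_le_self hs0.le (by linarith)
  obtain ⟨d1, d2⟩ := hd p (by linarith) p2
  have hxI : x ∈ Set.Ioo (p - (p - 1/2) / (2 * B)) p := by
    refine ⟨?_, p1⟩
    have h1 : s / (2 * B) ≤ (p - 1/2) / (2 * B) :=
      div_le_div_of_nonneg_right (by linarith) (by positivity)
    have h2 : s / (2 * B) = 2 * (s / (4 * B)) := by field_simp; norm_num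
    linarith
  refine ⟨d1.contDiffAt (Ioo_mem_nhds hxI.1 hxI.2), fun k => ?_⟩
  refine (d2 k x hxI).trans ?_
  rw [← hs, Real.rpow_sub_natCast hs0.ne']
  obtain ⟨u, hu⟩ : ∃ u : ℝ, u = p - 1/2 := ⟨_, rfl⟩
  rw [← hu]
  have hu1 : s ≤ u := by linarith
  have hu0 : 0 < u := by linarith
  have hu2 : u ≤ 2 * s := by linarith
  have e1 : (2 / (u / B)) ^ k ≤ (2 * B) ^ k / s ^ k := by
    rw [← div_pow]
    apply pow_le_pow_left₀ (by positivity)
    rw [div_div_eq_mul_div]
    exact div_le_div_of_nonneg_left (by positivity) hs0 hu1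
  have e2 : u ^ (5/36 : ℝ) ≤ 2 * s ^ (5/36 : ℝ) := by
    refine (Real.rpow_le_rpow hu0.le hu2 (by norm_num)).trans ?_
    rw [Real.mul_rpow (by norm_num) hs0.le]
    apply mul_le_mul_of_nonneg_right _ (by positivity)
    have := Real.rpow_le_rpow_of_exponent_le (show (1:ℝ) ≤ 2 by norm_num)
      (show (5/36 : ℝ) ≤ 1 by norm_num)
    rwa [Real.rpow_one] at this
  calc (k.factorial : ℝ) * (2 / (u / B)) ^ k * (B * u ^ (5/36 : ℝ))
      ≤ (k.factorial : ℝ) * ((2 * B) ^ k / s ^ k) * (B * (2 * s ^ (5/36 : ℝ))) := by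
        apply mul_le_mul _ _ (by positivity) (by positivity)
        · exact mul_le_mul_of_nonneg_left e1 (by positivity)
        · exact mul_le_mul_of_nonneg_left e2 hB0.le
    _ = _ := by rw [pow_succ]; ring

end Pool.Agent.H29.TH
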