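import Pool.Agent.H29.TH.Set
import Pool.Graph.R_pool_sql_team_seeded_3dad9d7b.NH39.W.Tay
import Pool.Graph.R_pool_sql_team_seeded_3dad9d7b.NH39.W.Lim

/-!
The expectation of the one-arm event as a function of the parameter in a box: Taylor expansion
and bounds for the derivatives.
-/

set_option autoImplicit false

namespace Pool.Agent.H29.TH

open H974 hiding WW
open H12S H389NS Finset
open Pool.Agent.NH39 (dd)
open Pool.Agent.NH39.W (Dl)

section gen
variable {E : Type} [DecidableEq E]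

theorem Ex_cq {q q' : E → ℝ} {S : Finset E} (h : ∀ e ∈ S, q e = q' e) (f : Finset E → ℝ) :
    Ex q S f = Ex q' S f := by
  unfold Ex
  apply Finset.sum_congr rfl
  intro F hF
  have hFS := Finset.mem_powerset.1 hF
  have e1 : ∏ e ∈ F, q e = ∏ e ∈ F, q' e := Finset.prod_congr rfl (fun e he => h e (hFS he))
  have e2 : ∏ e ∈ S \ F, (1 - q e) = ∏ e ∈ S \ F, (1 - q' e) :=
    Finset.prod_congr rfl (fun e he => by rw [h e (Finset.mem_sdiff.1 he).1])
  rw [e1, e2]

/-- Taylor expansion in the parameter on `U`. -/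
theorem tayU {V U : Finset E} (hU : U ⊆ V) (φ : Finset E → ℝ) (p w : ℝ) :
    Ex (fun e => if e ∈ U then p + w else p) V φ =
      ∑ G ∈ U.powerset, w ^ G.card * Ex (fun _ => p) V (Dl φ G) := by
  have hV : V = U ∪ (V \ U) := (Finset.union_sdiff_of_subset hU).symm
  have hd : Disjoint U (V \ U) := Finset.disjoint_sdiff
  have e1 : Ex (fun e => if e ∈ U then p + w else p) V φ =
      Ex (fun _ => p + w) U (fun A => Ex (fun _ => p) (V \ U) (fun B => φ (A ∪ B))) := by
    conv_lhs => rw [hV]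
    rw [Ex_union hd, Ex_cq (q' := fun _ => p + w) (fun e he => if_pos he)]
    apply Ex_congr
    intro A _
    exact Ex_cq (fun e he => if_neg (Finset.mem_sdiff.1 he).2) _
  rw [e1, Pool.Agent.NH39.W.tay E U _ p w]
  apply Finset.sum_congr rfl
  intro G hG
  have hGU := Finset.mem_powerset.1 hG
  congr 1
  conv_rhs => rw [hV]
  rw [Ex_union hd]
  apply Ex_congr
  intro A _
  unfold Dl
  rw [Ex_sum]
  apply Finset.sum_congr rfl
  intro T hT
  rw [Ex_mul_left]
  congr 1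
  apply Ex_congr
  intro B hB
  congr 1
  ext x
  simp only [Finset.mem_union, Finset.mem_sdiff]
  constructor
  · rintro ((⟨h1, h2⟩ | h1) | h1)
    · exact Or.inl ⟨Or.inl h1, h2⟩
    · exact Or.inr h1
    · exact Or.inl ⟨Or.inr h1, fun h => (Finset.mem_sdiff.1 (hB h1)).2 (hGU h)⟩
  · rintro (⟨h1 | h1, h2⟩ | h1)
    · exact Or.inl (Or.inl ⟨h1, h2⟩)
    · exact Or.inr h1
    · exact Or.inl (Or.inr h1)

theorem Dl_le {φ : Finset E → ℝ} (h : ∀ F, |φ F| ≤ 1) (G F : Finset E) :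
    |Dl φ G F| ≤ 2 ^ G.card := by
  unfold Dl
  refine (Finset.abs_sum_le_sum_abs _ _).trans ?_
  refine (Finset.sum_le_sum (g := fun _ => (1:ℝ)) fun T _ => ?_).trans ?_
  · rw [abs_mul, abs_pow, abs_neg, abs_one, one_pow, one_mul]
    exact h _
  · rw [Finset.sum_const, Finset.card_powerset, nsmul_eq_mul, mul_one]
    push_cast
    exact le_rfl

theorem Ex_Dl_le {q : E → ℝ} (hq : Ok q) {V : Finset E} {φ : Finset E → ℝ} (h : ∀ F, |φ F| ≤ 1)
    (G : Finset E) :
    |Ex q V (Dl φ G)| ≤ 2 ^ G.card * Pr q V (fun F => Dl φ G F ≠ 0) := by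
  have h1 : ∀ F, |Dl φ G F| ≤ 2 ^ G.card * ind (Dl φ G F ≠ 0) := by
    intro F
    by_cases h0 : Dl φ G F ≠ 0
    · rw [ind_of h0, mul_one]
      exact Dl_le h G F
    · rw [ind_not_of h0, not_not.mp h0]
      simp
  unfold Pr
  rw [← Ex_mul_left, abs_le]
  constructor
  · rw [← neg_one_mul, ← Ex_mul_left]
    exact Ex_mono hq (fun F _ => by have := (abs_le.mp (h1 F)).1; linarith)
  · exact Ex_mono hq (fun F _ => (abs_le.mp (h1 F)).2)

end gen

theorem fA_abs (L : ℕ) (F : Finset Edg) : |fA L F| ≤ 1 := by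
  unfold fA
  rw [abs_of_nonneg (ind_nonneg _)]
  exact ind_le_one _

/-- The sum of the coefficients. -/
theorem mix_sum : ∃ B : ℝ, 1 ≤ B ∧ ∀ p : ℝ, 1/2 < p → p ≤ 1 → ∀ M L : ℕ, 1 ≤ M → 3 * M ≤ L →
    ∑ S ∈ (boxE M).powerset, ((p - 1/2) / B) ^ S.card *
      |Ex (fun _ => p) (boxE L) (Dl (fA L) S)| ≤ B * vt p (2 * M) := by
  obtain ⟨B0, hB0, ht⟩ := tree_sum
  refine ⟨6 * B0, by linarith, ?_⟩
  intro p hp1 hp2 M L hM hL
  have hs : 0 < p - 1/2 := by linarith
  have ok := okq (q := p) (by linarith) hp2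
  obtain ⟨y, hy⟩ : ∃ y : ℝ, y = (p - 1/2) / B0 := ⟨_, rfl⟩
  have hy0 : 0 < y := by rw [hy]; positivity
  have hv : 0 < vt p (2 * M) := vt_pos (by omega)
  have h1 := ht p hp1 hp2 M L hM hL
  rw [← hy] at h1
  obtain ⟨g, hg⟩ : ∃ g : Finset Edg → ℝ, g = fun T =>
    y ^ T.card * Pr (fun _ => p) (boxE L) (Dsr L T) := ⟨_, rfl⟩
  obtain ⟨Q, hQ⟩ : ∃ Q : Finset (Finset Edg), Q =
    (boxE M).powerset.filter (fun S => oo ∈ S) := ⟨_, rfl⟩
  have h1' : ∑ T ∈ Q, g T ≤ 3 * (p - 1/2) * vt p (2 * M) := by rw [hg, hQ]; exact h1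
  -- one term
  have h2 : ∀ S : Finset Edg, ((p - 1/2) / (6 * B0)) ^ S.card *
      |Ex (fun _ => p) (boxE L) (Dl (fA L) S)| ≤
        y ^ S.card * Pr (fun _ => p) (boxE L) (fun F => Dl (fA L) S F ≠ 0) := by
    intro S
    have k1 := Ex_Dl_le ok (V := boxE L) (fA_abs L) S
    have k2 : ((p - 1/2) / (6 * B0)) ^ S.card * 2 ^ S.card ≤ y ^ S.card := by
      rw [← mul_pow]
      apply pow_le_pow_left₀ (by positivity)
      rw [hy]
      have : (p - 1/2) / (6 * B0) * 2 = (p - 1/2) / B0 * (1/3) := by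
        field_simp; ring
      rw [this]
      have : 0 < (p - 1/2) / B0 := by positivity
      linarith
    have k3 := Pr_nonneg ok (boxE L) (fun F => Dl (fA L) S F ≠ 0)
    calc ((p - 1/2) / (6 * B0)) ^ S.card * |Ex (fun _ => p) (boxE L) (Dl (fA L) S)|
        ≤ ((p - 1/2) / (6 * B0)) ^ S.card * (2 ^ S.card *
          Pr (fun _ => p) (boxE L) (fun F => Dl (fA L) S F ≠ 0)) :=
          mul_le_mul_of_nonneg_left k1 (by positivity)
      _ = (((p - 1/2) / (6 * B0)) ^ S.card * 2 ^ S.card) *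
          Pr (fun _ => p) (boxE L) (fun F => Dl (fA L) S F ≠ 0) := by ring
      _ ≤ _ := mul_le_mul_of_nonneg_right k2 k3
  have h3 : ∀ S : Finset Edg, y ^ S.card * Pr (fun _ => p) (boxE L) (fun F => Dl (fA L) S F ≠ 0) ≤
      g S := by
    intro S
    rw [hg]
    apply mul_le_mul_of_nonneg_left _ (by positivity)
    exact Pr_mono ok (fun F _ h => Or.inl h)
  have h4 : ∀ S : Finset Edg, oo ∉ S →
      y ^ S.card * Pr (fun _ => p) (boxE L) (fun F => Dl (fA L) S F ≠ 0) ≤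
      y⁻¹ * g (insert oo S) := by
    intro S hS
    rw [hg]
    simp only
    rw [Finset.card_insert_of_notMem hS, pow_succ]
    have e : y⁻¹ * (y ^ S.card * y * Pr (fun _ => p) (boxE L) (Dsr L (insert oo S))) =
        y ^ S.card * Pr (fun _ => p) (boxE L) (Dsr L (insert oo S)) := by
      field_simp
    rw [e]
    apply mul_le_mul_of_nonneg_left _ (by positivity)
    refine Pr_mono ok (fun F _ h => Or.inr ?_)
    rw [Finset.erase_insert hS]
    exact h
  rw [← Finset.sum_filter_add_sum_filter_not (boxE M).powerset (fun S => oo ∈ S), ← hQ]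
  have s1 : ∑ S ∈ Q, ((p - 1/2) / (6 * B0)) ^ S.card *
      |Ex (fun _ => p) (boxE L) (Dl (fA L) S)| ≤ 3 * (p - 1/2) * vt p (2 * M) :=
    (Finset.sum_le_sum (fun S _ => (h2 S).trans (h3 S))).trans h1'
  have s2 : ∑ S ∈ (boxE M).powerset.filter (fun S => oo ∉ S), ((p - 1/2) / (6 * B0)) ^ S.card *
      |Ex (fun _ => p) (boxE L) (Dl (fA L) S)| ≤ 3 * B0 * vt p (2 * M) := by
    have e1 : ∑ S ∈ (boxE M).powerset.filter (fun S => oo ∉ S), ((p - 1/2) / (6 * B0)) ^ S.card *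
      |Ex (fun _ => p) (boxE L) (Dl (fA L) S)| ≤
        ∑ S ∈ (boxE M).powerset.filter (fun S => oo ∉ S), y⁻¹ * g (insert oo S) :=
      Finset.sum_le_sum (fun S hS => (h2 S).trans (h4 S (Finset.mem_filter.1 hS).2))
    have e2 : ∑ S ∈ (boxE M).powerset.filter (fun S => oo ∉ S), g (insert oo S) =
        ∑ T ∈ Q, g T := by
      rw [hQ]
      refine Finset.sum_bij' (fun S _ => insert oo S) (fun T _ => T.erase oo) ?_ ?_ ?_ ?_ ?_
      · intro S hS
        rw [Finset.mem_filter, Finset.mem_powerset] at hS ⊢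
        exact ⟨Finset.insert_subset (oo_mem hM) hS.1, Finset.mem_insert_self _ _⟩
      · intro T hT
        rw [Finset.mem_filter, Finset.mem_powerset] at hT ⊢
        exact ⟨(Finset.erase_subset _ _).trans hT.1, Finset.notMem_erase _ _⟩
      · intro S hS
        exact Finset.erase_insert (Finset.mem_filter.1 hS).2
      · intro T hT
        exact Finset.insert_erase (Finset.mem_filter.1 hT).2
      · intro S _
        rfl
    refine e1.trans ?_
    rw [← Finset.mul_sum, e2]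
    refine (mul_le_mul_of_nonneg_left h1' (by positivity)).trans (le_of_eq ?_)
    obtain ⟨s, hs'⟩ : ∃ s : ℝ, s = p - 1/2 := ⟨_, rfl⟩
    rw [hy, ← hs']
    rw [← hs'] at hs
    field_simp
  have hs2 : p - 1/2 ≤ 1/2 := by linarith
  have hB2 : 0 < B0 * vt p (2 * M) := by positivity
  nlinarith [mul_pos hs hv, mul_le_mul_of_nonneg_right hs2 hv.le,
    mul_le_mul_of_nonneg_right hB0 hv.le]

/-- Derivatives of a polynomial. -/
theorem poly_bound {ι : Type} (Q : Finset ι) (d : ι → ℕ) (c : ι → ℝ) {R M0 : ℝ} (hR : 0 < R)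
    (h : ∑ i ∈ Q, R ^ d i * |c i| ≤ M0) (k : ℕ) {w : ℝ} (hw : |w| ≤ R / 2) :
    |iteratedDeriv k (fun w => ∑ i ∈ Q, w ^ d i * c i) w| ≤ k.factorial * (2 / R) ^ k * M0 := by
  rw [iteratedDeriv_fun_sum (fun i _ => by fun_prop)]
  refine (Finset.abs_sum_le_sum_abs _ _).trans ?_
  refine le_trans ?_ (mul_le_mul_of_nonneg_left h (by positivity))
  rw [Finset.mul_sum]
  apply Finset.sum_le_sum
  intro i _
  rw [iteratedDeriv_mul_const_field, iteratedDeriv_pow, abs_mul, abs_mul, abs_pow,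
    Nat.abs_cast, ← mul_assoc]
  apply mul_le_mul_of_nonneg_right _ (abs_nonneg _)
  rcases Nat.lt_or_ge (d i) k with hk | hk
  · rw [Nat.descFactorial_eq_zero_iff_lt.2 hk, Nat.cast_zero, zero_mul]
    positivity
  · obtain ⟨m, hm⟩ : ∃ m, d i = k + m := ⟨d i - k, by omega⟩
    rw [hm, Nat.add_sub_cancel_left, Nat.descFactorial_eq_factorial_mul_choose]
    have e1 : (((k + m).choose k : ℕ) : ℝ) ≤ 2 ^ (k + m) := by
      exact_mod_cast Nat.choose_le_two_pow (k + m) k
    have e2 : |w| ^ m ≤ (R / 2) ^ m := pow_le_pow_left₀ (abs_nonneg _) hw m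
    push_cast
    calc (k.factorial : ℝ) * ((k + m).choose k : ℝ) * |w| ^ m ≤ (k.factorial : ℝ) * 2 ^ (k + m) * (R / 2) ^ m := by
          apply mul_le_mul _ e2 (by positivity) (by positivity)
          exact mul_le_mul_of_nonneg_left e1 (by positivity)
      _ = (k.factorial : ℝ) * (2 / R) ^ k * R ^ (k + m) := by
          rw [div_pow, div_pow, pow_add, pow_add]
          field_simp

end Pool.Agent.H29.TH
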