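import Pool.Graph.R_pool_sql_team_seeded_3dad9d7b.NH39.W.Stm

/-!
Induction over the scales for sets of edges which matter together for the connection of a root to
infinity: abstract form, with two weights (one arm for the groups with the root, four arms for the
other groups). Adapted from the library module `NH39/W/Key`.
-/

set_option autoImplicit false
set_option linter.unusedSectionVars false

namespace Pool.Agent.H29.TH

open H974 Finset
open Pool.Agent.NH39.W (dm conn psi)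

/-- A weight comparable with `w`. -/
structure Wf (w u : ℕ → ℝ) (W : ℝ) : Prop where
  one : u 1 = 1
  pos : ∀ r, 1 ≤ r → 0 < u r
  mono : ∀ r s, 1 ≤ r → r ≤ s → u s ≤ u r
  dbl : ∀ r s, 1 ≤ r → r ≤ s → s ≤ 8 * r → u r ≤ W * u s
  rel : ∀ r s, 1 ≤ r → r ≤ s → w s * u r ≤ W * (w r * u s)

/-- The hypotheses. -/
structure KSet {E : Type} [DecidableEq E] (ds : E → E → ℕ) (V0 V : Finset E) (o : E) (N : ℕ)
    (q : ℝ) (w v : ℕ → ℝ) (Ds : Finset E → Finset E → Prop) (C W : ℝ) : Prop where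
  d0 : ∀ a, ds a a = 0
  dc : ∀ a b, ds a b = ds b a
  dt : ∀ a b c, ds a c ≤ ds a b + ds b c
  hN : 1 ≤ N
  q0 : 0 ≤ q
  q1 : q ≤ 1
  ww : Wf w w W
  wv : Wf w v W
  annw : ∀ x ∈ V0, ∀ (r D : ℕ), 1 ≤ r → r ≤ D → D ≤ N → ∃ Ch : Finset E → Prop,
      (∀ F F' : Finset E, (∀ e, r ≤ ds e x → ds e x ≤ D → (e ∈ F ↔ e ∈ F')) → (Ch F ↔ Ch F')) ∧
      (∀ S F : Finset E, S ⊆ V0 → F ⊆ V → x ∈ S → o ∈ S →
        (∀ y ∈ S, ds y x < r ∨ D < ds y x) → D < ds o x → Ds S F → Ch F) ∧
      Pr (fun _ => q) V Ch ≤ C * (w D / w r)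
  annv : ∀ (r D : ℕ), 1 ≤ r → r ≤ D → D ≤ N → ∃ Ch : Finset E → Prop,
      (∀ F F' : Finset E, (∀ e, r ≤ ds e o → ds e o ≤ D → (e ∈ F ↔ e ∈ F')) → (Ch F ↔ Ch F')) ∧
      (∀ S F : Finset E, S ⊆ V0 → F ⊆ V → o ∈ S →
        (∀ y ∈ S, ds y o < r ∨ D < ds y o) → Ds S F → Ch F) ∧
      Pr (fun _ => q) V Ch ≤ C * (v D / v r)
  hC : 1 ≤ C
  hW : 1 ≤ W

/-- The weight of a group. -/
def uu {E : Type} [DecidableEq E] (o : E) (w v : ℕ → ℝ) (S : Finset E) : ℕ → ℝ :=
  if o ∈ S then v else w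

/-- There are an event and a tree on `S` with root `x`. -/
def Gd {E : Type} [DecidableEq E] (ds : E → E → ℕ) (V0 V : Finset E) (o : E) (N : ℕ) (q : ℝ)
    (w v : ℕ → ℝ) (Ds : Finset E → Finset E → Prop) (a : ℝ) (t τ s k : ℕ)
    (S : Finset E) (x : E) : Prop :=
  ∃ (Ev : Finset E → Prop) (par : E → E) (rk : E → ℕ),
    (∀ F F' : Finset E, (∀ e, (∃ v ∈ S, ds e v ≤ t / 2) → (e ∈ F ↔ e ∈ F')) → (Ev F ↔ Ev F')) ∧
    (∀ S' : Finset E, S' ⊆ V0 → S ⊆ S' → o ∈ S' → (∀ v ∈ S, ∀ w ∈ S' \ S, t < ds v w) →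
      ∀ F : Finset E, F ⊆ V → Ds S' F → Ev F) ∧
    (∀ y ∈ S, y ≠ x → par y ∈ S ∧ rk (par y) < rk y ∧ ds y (par y) ≤ τ) ∧
    Pr (fun _ => q) V Ev ≤
      a ^ k * (∏ y ∈ S.erase x, psi w N (ds y (par y))) * psi (uu o w v S) N s

section
variable {E : Type} [DecidableEq E] {ds : E → E → ℕ} {V0 V : Finset E} {o : E} {N : ℕ} {q : ℝ}
  {w v : ℕ → ℝ} {Ds : Finset E → Finset E → Prop} {C W a : ℝ}

theorem KSet.ok (H : KSet ds V0 V o N q w v Ds C W) : Ok (fun _ : E => q) :=
  fun _ => ⟨H.q0, H.q1⟩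

theorem KSet.uw (H : KSet ds V0 V o N q w v Ds C W) (S : Finset E) : Wf w (uu o w v S) W := by
  unfold uu
  split_ifs
  · exact H.wv
  · exact H.ww

theorem Wf.ppos {u : ℕ → ℝ} (h : Wf w u W) (s : ℕ) : 0 < psi u N s :=
  h.pos _ (le_max_left _ _)

theorem Wf.panti {u : ℕ → ℝ} (h : Wf w u W) {s s' : ℕ} (hs : s ≤ s') :
    psi u N s' ≤ psi u N s := by
  unfold psi
  exact h.mono _ _ (le_max_left _ _) (max_le_max le_rfl (min_le_min hs le_rfl))

theorem Wf.pdbl {u : ℕ → ℝ} (h : Wf w u W) (hN : 1 ≤ N) {s s' : ℕ} (hs : s ≤ s')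
    (h2 : s' ≤ 8 * max 1 s) : psi u N s ≤ W * psi u N s' := by
  unfold psi
  exact h.dbl _ _ (le_max_left _ _) (max_le_max le_rfl (min_le_min hs le_rfl)) (by omega)

theorem Wf.pzero {u : ℕ → ℝ} (h : Wf w u W) : psi u N 0 = 1 := by
  unfold psi
  simp [h.one]

theorem Wf.pmid {u : ℕ → ℝ} (_ : Wf w u W) {s : ℕ} (h1 : 1 ≤ s) (h2 : s ≤ N) :
    psi u N s = u s := by
  unfold psi
  rw [min_eq_left h2, max_eq_right h1]

theorem Wf.prel {u : ℕ → ℝ} (h : Wf w u W) {s s' : ℕ} (hs : s ≤ s') :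
    psi w N s' * psi u N s ≤ W * (psi w N s * psi u N s') := by
  unfold psi
  exact h.rel _ _ (le_max_left _ _) (max_le_max le_rfl (min_le_min hs le_rfl))

theorem dm_le_of' {S : Finset E} {m : ℕ} (h : ∀ a ∈ S, ∀ b ∈ S, ds a b ≤ m) : dm ds S ≤ m := by
  unfold dm
  exact Finset.sup_le (fun a ha => Finset.sup_le (fun b hb => h a ha b hb))

theorem ds_le_dm' {S : Finset E} {u v : E} (hu : u ∈ S) (hv : v ∈ S) : ds u v ≤ dm ds S := by
  unfold dm
  exact (Finset.le_sup (f := fun b => ds u b) hv).trans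
    (Finset.le_sup (f := fun a => S.sup (fun b => ds a b)) hu)

theorem dm_mono' {S T : Finset E} (h : S ⊆ T) : dm ds S ≤ dm ds T :=
  dm_le_of' (fun _ ha _ hb => ds_le_dm' (h ha) (h hb))

theorem dm_union' (H : KSet ds V0 V o N q w v Ds C W) {U R : Finset E} {b u : E} {t : ℕ}
    (hu : u ∈ U) (hb : b ∈ R) (hbu : ds b u ≤ t + 1) :
    dm ds (U ∪ R) ≤ dm ds U + (t + 1) + dm ds R := by
  have key : ∀ v ∈ U, ∀ w ∈ R, ds v w ≤ dm ds U + (t + 1) + dm ds R := by
    intro v hv w hw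
    have h1 := H.dt v u w
    have h2 := H.dt u b w
    have h3 := ds_le_dm' (ds := ds) hv hu
    have h4 := ds_le_dm' (ds := ds) hb hw
    rw [H.dc u b] at h2
    omega
  apply dm_le_of'
  intro v hv w hw
  rw [mem_union] at hv hw
  rcases hv with hv | hv <;> rcases hw with hw | hw
  · exact (ds_le_dm' hv hw).trans (by omega)
  · exact key v hv w hw
  · rw [H.dc]
    exact key w hw v hv
  · exact (ds_le_dm' hv hw).trans (by omega)

theorem KSet.prod_nn (H : KSet ds V0 V o N q w v Ds C W) (ha : 1 ≤ a) (k : ℕ) (S : Finset E)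
    (f : E → ℕ) : 0 ≤ a ^ k * ∏ y ∈ S, psi w N (f y) :=
  mul_nonneg (pow_nonneg (by linarith) _) (Finset.prod_nonneg fun y _ => (H.ww.ppos _).le)

/-- monotonicity -/
theorem gd_mono (H : KSet ds V0 V o N q w v Ds C W) {t τ τ' s s' k k' : ℕ} {S : Finset E}
    {x : E} (h : Gd ds V0 V o N q w v Ds a t τ s k S x) (hτ : τ ≤ τ') (hs : s' ≤ s)
    (hk : k ≤ k') (ha : 1 ≤ a) : Gd ds V0 V o N q w v Ds a t τ' s' k' S x := by
  obtain ⟨Ev, par, rk, h1, h2, h3, h4⟩ := h
  refine ⟨Ev, par, rk, h1, h2, fun y hy hx => ?_, h4.trans ?_⟩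
  · obtain ⟨e1, e2, e3⟩ := h3 y hy hx
    exact ⟨e1, e2, e3.trans hτ⟩
  · refine mul_le_mul ?_ ((H.uw S).panti hs) ((H.uw S).ppos _).le (H.prod_nn ha _ _ _)
    refine mul_le_mul_of_nonneg_right ?_ (Finset.prod_nonneg fun _ _ => (H.ww.ppos _).le)
    exact pow_le_pow_right₀ ha hk

/-- comparison of the bounds -/
theorem KSet.step (H : KSet ds V0 V o N q w v Ds C W) {P : ℝ} {k : ℕ} {S S1 : Finset E}
    {f : E → ℕ} {s s' : ℕ} (ha : 1 ≤ a)
    (h : P ≤ a ^ k * (∏ y ∈ S, psi w N (f y)) * psi (uu o w v S1) N s)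
    (h2 : psi (uu o w v S1) N s ≤ a * psi (uu o w v S1) N s') :
    P ≤ a ^ (k + 1) * (∏ y ∈ S, psi w N (f y)) * psi (uu o w v S1) N s' := by
  refine h.trans ?_
  calc a ^ k * (∏ y ∈ S, psi w N (f y)) * psi (uu o w v S1) N s
      ≤ a ^ k * (∏ y ∈ S, psi w N (f y)) * (a * psi (uu o w v S1) N s') :=
        mul_le_mul_of_nonneg_left h2 (H.prod_nn ha _ _ _)
    _ = _ := by rw [pow_succ]; ring

/-- both kinds of annuli -/
theorem KSet.ann (H : KSet ds V0 V o N q w v Ds C W) {S : Finset E} (hSV : S ⊆ V0) {x : E}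
    (hx : x ∈ S) (hox : o ∈ S → x = o) {r D : ℕ} (h1 : 1 ≤ r) (h2 : r ≤ D) (h3 : D ≤ N) :
    ∃ Ch : Finset E → Prop,
      (∀ F F' : Finset E, (∀ e, r ≤ ds e x → ds e x ≤ D → (e ∈ F ↔ e ∈ F')) → (Ch F ↔ Ch F')) ∧
      (∀ S' F : Finset E, S' ⊆ V0 → F ⊆ V → x ∈ S' → o ∈ S' →
        (∀ y ∈ S', ds y x < r ∨ D < ds y x) → (o ∈ S ∨ D < ds o x) → Ds S' F → Ch F) ∧
      Pr (fun _ => q) V Ch ≤ C * (uu o w v S D / uu o w v S r) := by
  by_cases ho : o ∈ S
  · have hxo := hox ho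
    subst hxo
    obtain ⟨Ch, c1, c2, c3⟩ := H.annv r D h1 h2 h3
    refine ⟨Ch, c1, fun S' F a1 a2 a3 a4 a5 _ a7 => c2 S' F a1 a2 a3 a5 a7, ?_⟩
    unfold uu
    rw [if_pos ho]
    exact c3
  · obtain ⟨Ch, c1, c2, c3⟩ := H.annw x (hSV hx) r D h1 h2 h3
    refine ⟨Ch, c1, fun S' F a1 a2 a3 a4 a5 a6 a7 =>
      c2 S' F a1 a2 a3 a4 a5 (a6.resolve_left ho) a7, ?_⟩
    unfold uu
    rw [if_neg ho]
    exact c3

/-- BASE -/
theorem gd_base (H : KSet ds V0 V o N q w v Ds C W) (ha : C * W ^ 2 ≤ a) {t' : ℕ}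
    {S : Finset E} {x : E} (hSV : S ⊆ V0) (hox : o ∈ S → x = o)
    (ht' : t' ≤ N) (hx : x ∈ S) (hall : ∀ y ∈ S, ds y x = 0) :
    Gd ds V0 V o N q w v Ds a t' 0 (max t' (dm ds S)) 1 S x := by
  have hC := H.hC
  have hW := H.hW
  have hu := H.uw S
  have hdm : dm ds S = 0 := by
    apply Nat.le_zero.mp
    apply dm_le_of'
    intro u hu v hv
    have h1 := H.dt u x v
    rw [H.dc x v, hall u hu, hall v hv] at h1
    exact h1
  rw [hdm, max_eq_left (Nat.zero_le _)]
  have hprod : ∏ y ∈ S.erase x, psi w N (ds y ((fun _ => x) y)) = 1 := by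
    refine Finset.prod_eq_one fun y hy => ?_
    simp only [hall y (Finset.mem_of_mem_erase hy)]
    exact H.ww.pzero
  have htree : ∀ y ∈ S, y ≠ x → (fun _ => x) y ∈ S ∧
      (fun y => if y = x then 0 else 1) ((fun _ => x) y) < (fun y => if y = x then 0 else 1) y ∧
      ds y ((fun _ => x) y) ≤ 0 := by
    intro y hy hyx
    refine ⟨hx, ?_, (hall y hy).le⟩
    simp [hyx]
  by_cases hD : 1 ≤ t' / 2
  · obtain ⟨Ch, hloc, himp, hpr⟩ := H.ann hSV hx hox le_rfl hD (by omega : t' / 2 ≤ N)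
    refine ⟨Ch, fun _ => x, fun y => if y = x then 0 else 1, ?_, ?_, htree, ?_⟩
    · intro F F' hFF
      exact hloc F F' fun e he he' => hFF e ⟨x, hx, he'⟩
    · intro S' hS'V hSS' hoS' hfar F hFV hF
      refine himp S' F hS'V hFV (hSS' hx) hoS' ?_ ?_ hF
      · intro y hy
        by_cases hyS : y ∈ S
        · left
          rw [hall y hyS]
          exact Nat.one_pos
        · right
          have := hfar x hx y (mem_sdiff.mpr ⟨hy, hyS⟩)
          rw [H.dc]
          omega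
      · by_cases ho : o ∈ S
        · exact Or.inl ho
        · right
          have := hfar x hx o (mem_sdiff.mpr ⟨hoS', ho⟩)
          rw [H.dc]
          omega
    · rw [hprod, pow_one, mul_one, hu.pmid (by omega) ht']
      rw [hu.one, div_one] at hpr
      have h1 : uu o w v S (t' / 2) ≤ W * uu o w v S t' := hu.dbl _ _ hD (by omega) (by omega)
      have h2 := hu.pos t' (by omega)
      calc Pr (fun _ => q) V Ch ≤ C * uu o w v S (t' / 2) := hpr
        _ ≤ C * (W * uu o w v S t') := mul_le_mul_of_nonneg_left h1 (by linarith)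
        _ = (C * W) * uu o w v S t' := by ring
        _ ≤ a * uu o w v S t' := by
            refine mul_le_mul_of_nonneg_right (le_trans ?_ ha) h2.le
            have : W ≤ W ^ 2 := by nlinarith
            exact mul_le_mul_of_nonneg_left this (by linarith)
  · refine ⟨fun _ => True, fun _ => x, fun y => if y = x then 0 else 1, fun _ _ _ => Iff.rfl,
      fun _ _ _ _ _ _ _ _ => trivial, htree, ?_⟩
    rw [hprod, pow_one, mul_one]
    have h1 : psi (uu o w v S) N t' = 1 := by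
      unfold psi
      rw [show max 1 (min t' N) = 1 by omega]
      exact hu.one
    rw [h1, mul_one]
    refine (Pr_le_one H.ok _ _).trans (le_trans ?_ ha)
    nlinarith

/-- START -/
theorem gd_start (H : KSet ds V0 V o N q w v Ds C W) (ha1 : 1 ≤ a) (ha : C * W ^ 2 ≤ a)
    {t k : ℕ} {R : Finset E} {x : E}
    (h : Gd ds V0 V o N q w v Ds a t (t + 1) (max t (dm ds R)) k R x) :
    Gd ds V0 V o N q w v Ds a t (t + 1) (max (t + 1) (dm ds R)) (k + 1) R x := by
  obtain ⟨Ev, par, rk, h1, h2, h3, h4⟩ := h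
  refine ⟨Ev, par, rk, h1, h2, h3, H.step ha1 h4 ?_⟩
  have hC := H.hC
  have hW := H.hW
  refine ((H.uw R).pdbl H.hN (s' := max (t + 1) (dm ds R)) (by omega) (by omega)).trans ?_
  refine mul_le_mul_of_nonneg_right (le_trans ?_ ha) ((H.uw R).ppos _).le
  nlinarith

/-- the comparison of the products -/
theorem gd_merge_psi (H : KSet ds V0 V o N q w v Ds C W) {g : ℕ → ℝ} (hg : Wf w g W) {t : ℕ}
    {U R : Finset E} {b u : E}
    (hu : u ∈ U) (hb : b ∈ R) (hbu : ds b u ≤ t + 1) :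
    psi g N (max (t + 1) (dm ds U)) * psi w N (max t (dm ds R)) ≤
      W ^ 2 * (psi w N (ds b u) * psi g N (max (t + 1) (dm ds (U ∪ R)))) := by
  have hW := H.hW
  have h1 := dm_union' H hu hb hbu
  have h2 : dm ds U ≤ dm ds (U ∪ R) := dm_mono' subset_union_left
  have h3 : dm ds R ≤ dm ds (U ∪ R) := dm_mono' subset_union_right
  obtain ⟨M, hM⟩ : ∃ M, M = max (t + 1) (dm ds U) := ⟨_, rfl⟩
  obtain ⟨M', hM'⟩ : ∃ M', M' = max (t + 1) (dm ds (U ∪ R)) := ⟨_, rfl⟩
  rw [← hM, ← hM']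
  have p0 := hg.ppos (N := N) M
  have p1 := H.ww.ppos (N := N) (ds b u)
  have p2 := hg.ppos (N := N) M'
  have p3 := H.ww.ppos (N := N) (max t (dm ds R))
  rcases le_total (dm ds R) M with hc | hc
  · have e1 : psi g N M ≤ W * psi g N M' := hg.pdbl H.hN (by omega) (by omega)
    have e2 : psi w N (max t (dm ds R)) ≤ psi w N t := H.ww.panti (le_max_left _ _)
    have e3 : psi w N t ≤ W * psi w N (t + 1) := H.ww.pdbl H.hN (by omega) (by omega)
    have e4 : psi w N (t + 1) ≤ psi w N (ds b u) := H.ww.panti hbu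
    have e5 : psi w N (max t (dm ds R)) ≤ W * psi w N (ds b u) :=
      (e2.trans e3).trans (mul_le_mul_of_nonneg_left e4 (by linarith))
    calc psi g N M * psi w N (max t (dm ds R)) ≤ (W * psi g N M') * (W * psi w N (ds b u)) :=
          mul_le_mul e1 e5 p3.le (by positivity)
      _ = _ := by ring
  · have e0 : max t (dm ds R) = dm ds R := max_eq_right (by omega)
    rw [e0]
    have e4 : psi w N M ≤ psi w N (ds b u) := H.ww.panti (by omega)
    have e5 : psi g N (dm ds R) ≤ W * psi g N M' := hg.pdbl H.hN (by omega) (by omega)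
    have e6 := hg.prel (N := N) hc
    have p4 := hg.ppos (N := N) (dm ds R)
    have p5 := H.ww.ppos (N := N) M
    calc psi g N M * psi w N (dm ds R) = psi w N (dm ds R) * psi g N M := mul_comm _ _
      _ ≤ W * (psi w N M * psi g N (dm ds R)) := e6
      _ ≤ W * (psi w N (ds b u) * (W * psi g N M')) :=
          mul_le_mul_of_nonneg_left (mul_le_mul e4 e5 p4.le p1.le) (by linarith)
      _ = _ := by ring

/-- MERGE -/
theorem gd_merge (H : KSet ds V0 V o N q w v Ds C W) (ha1 : 1 ≤ a) (ha : C * W ^ 2 ≤ a)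
    {t k k' : ℕ} {U R : Finset E} {x b u : E} (hUV : U ⊆ V0) (hRV : R ⊆ V0) (hoR : o ∉ R)
    (hx : x ∈ U) (hu : u ∈ U) (hb : b ∈ R)
    (hbu : ds b u ≤ t + 1) (hfar : ∀ v ∈ U, ∀ w ∈ R, t < ds v w)
    (hU : Gd ds V0 V o N q w v Ds a t (t + 1) (max (t + 1) (dm ds U)) k U x)
    (hR : Gd ds V0 V o N q w v Ds a t (t + 1) (max t (dm ds R)) k' R b) :
    Gd ds V0 V o N q w v Ds a t (t + 1) (max (t + 1) (dm ds (U ∪ R))) (k + k' + 1) (U ∪ R) x := by
  classical
  have hC := H.hC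
  have hW := H.hW
  obtain ⟨Ev, par, rk, g1, g2, g3, g4⟩ := hU
  obtain ⟨Ev', par', rk', g1', g2', g3', g4'⟩ := hR
  have huR : uu o w v R = w := by unfold uu; rw [if_neg hoR]
  have huU : uu o w v (U ∪ R) = uu o w v U := by
    unfold uu
    by_cases ho : o ∈ U
    · rw [if_pos ho, if_pos (mem_union_left _ ho)]
    · rw [if_neg ho, if_neg (by rw [mem_union, not_or]; exact ⟨ho, hoR⟩)]
  rw [huR] at g4'
  have hUR : ∀ v ∈ R, v ∉ U := by
    intro v hv hvU
    have := hfar v hvU v hv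
    rw [H.d0] at this
    omega
  have hdisj : Disjoint U R := Finset.disjoint_right.mpr hUR
  have hxR : x ∉ R := fun h => hUR x h hx
  have hbU : b ∉ U := hUR b hb
  refine ⟨fun F => Ev F ∧ Ev' F, fun y => if y ∈ U then par y else if y = b then u else par' y,
    fun y => if y ∈ U then rk y else rk u + 1 + rk' y, ?_, ?_, ?_, ?_⟩
  · intro F F' hFF
    refine and_congr (g1 F F' fun e he => hFF e ?_) (g1' F F' fun e he => hFF e ?_)
    · obtain ⟨v, hv, h⟩ := he
      exact ⟨v, mem_union_left _ hv, h⟩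
    · obtain ⟨v, hv, h⟩ := he
      exact ⟨v, mem_union_right _ hv, h⟩
  · intro S' hS'V hSS' hoS' hfar' F hFV hF
    constructor
    · refine g2 S' hS'V (subset_union_left.trans hSS') hoS' (fun v hv y hy => ?_) F hFV hF
      obtain ⟨hy1, hy2⟩ := mem_sdiff.mp hy
      by_cases hyR : y ∈ R
      · exact hfar v hv y hyR
      · refine hfar' v (mem_union_left _ hv) y (mem_sdiff.mpr ⟨hy1, ?_⟩)
        rw [mem_union, not_or]
        exact ⟨hy2, hyR⟩
    · refine g2' S' hS'V (subset_union_right.trans hSS') hoS' (fun v hv y hy => ?_) F hFV hF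
      obtain ⟨hy1, hy2⟩ := mem_sdiff.mp hy
      by_cases hyU : y ∈ U
      · rw [H.dc]
        exact hfar y hyU v hv
      · refine hfar' v (mem_union_right _ hv) y (mem_sdiff.mpr ⟨hy1, ?_⟩)
        rw [mem_union, not_or]
        exact ⟨hyU, hy2⟩
  · intro y hy hyx
    by_cases hyU : y ∈ U
    · obtain ⟨e1, e2, e3⟩ := g3 y hyU hyx
      simp only [if_pos hyU, if_pos e1]
      exact ⟨mem_union_left _ e1, e2, e3⟩
    · have hyR : y ∈ R := (mem_union.mp hy).resolve_left hyU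
      by_cases hyb : y = b
      · simp only [if_neg hyU, if_pos hyb, if_pos hu]
        exact ⟨mem_union_left _ hu, by omega, by rw [hyb]; exact hbu⟩
      · obtain ⟨e1, e2, e3⟩ := g3' y hyR hyb
        simp only [if_neg hyU, if_neg hyb, if_neg (hUR _ e1)]
        exact ⟨mem_union_right _ e1, by omega, e3⟩
  · -- independence
    have hind : Pr (fun _ => q) V (fun F => Ev F ∧ Ev' F) =
        Pr (fun _ => q) V Ev * Pr (fun _ => q) V Ev' := by
      refine Pr_indep (S := V.filter fun e => ∃ v ∈ U, ds e v ≤ t / 2)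
        (T := V.filter fun e => ∃ v ∈ R, ds e v ≤ t / 2) (filter_subset _ _)
        (filter_subset _ _) ?_ ?_ ?_
      · rw [Finset.disjoint_left]
        intro e he1 he2
        obtain ⟨v, hv, h1⟩ := (mem_filter.mp he1).2
        obtain ⟨y, hy, h2⟩ := (mem_filter.mp he2).2
        have h3 := hfar v hv y hy
        have h4 := H.dt v e y
        rw [H.dc v e] at h4
        omega
      · intro F hF
        refine g1 _ _ fun e he => ?_
        rw [mem_inter, mem_filter]
        exact ⟨fun h => ⟨h, hF h, he⟩, fun h => h.1⟩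
      · intro F hF
        refine g1' _ _ fun e he => ?_
        rw [mem_inter, mem_filter]
        exact ⟨fun h => ⟨h, hF h, he⟩, fun h => h.1⟩
    rw [hind, huU]
    have hprod : ∏ y ∈ (U ∪ R).erase x,
        psi w N (ds y (if y ∈ U then par y else if y = b then u else par' y)) =
        (∏ y ∈ U.erase x, psi w N (ds y (par y))) *
          (psi w N (ds b u) * ∏ y ∈ R.erase b, psi w N (ds y (par' y))) := by
      have e1 : (U ∪ R).erase x = U.erase x ∪ R := by
        ext y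
        simp only [mem_erase, mem_union]
        constructor
        · rintro ⟨h1, h2 | h2⟩
          · exact Or.inl ⟨h1, h2⟩
          · exact Or.inr h2
        · rintro (⟨h1, h2⟩ | h2)
          · exact ⟨h1, Or.inl h2⟩
          · exact ⟨fun h => hxR (h ▸ h2), Or.inr h2⟩
      rw [e1, Finset.prod_union (hdisj.mono_left (erase_subset _ _))]
      congr 1
      · refine Finset.prod_congr rfl fun y hy => ?_
        rw [if_pos (mem_of_mem_erase hy)]
      · rw [← Finset.mul_prod_erase R _ hb]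
        congr 1
        · rw [if_neg hbU, if_pos rfl]
        · refine Finset.prod_congr rfl fun y hy => ?_
          rw [mem_erase] at hy
          rw [if_neg (hUR y hy.2), if_neg hy.1]
    rw [hprod]
    have hm := gd_merge_psi H (H.uw U) hu hb hbu
    have n1 := H.prod_nn ha1 k (U.erase x) fun y => ds y (par y)
    have n2 := H.prod_nn ha1 k' (R.erase b) fun y => ds y (par' y)
    have n3 := H.ww.ppos (N := N) (ds b u)
    have n4 := (H.uw U).ppos (N := N) (max (t + 1) (dm ds (U ∪ R)))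
    obtain ⟨P1, hP1⟩ : ∃ P1, P1 = ∏ y ∈ U.erase x, psi w N (ds y (par y)) := ⟨_, rfl⟩
    obtain ⟨P2, hP2⟩ : ∃ P2, P2 = ∏ y ∈ R.erase b, psi w N (ds y (par' y)) := ⟨_, rfl⟩
    rw [← hP1] at g4 n1 ⊢
    rw [← hP2] at g4' n2 ⊢
    have h5 : W ^ 2 ≤ a := le_trans (by nlinarith) ha
    calc Pr (fun _ => q) V Ev * Pr (fun _ => q) V Ev'
        ≤ (a ^ k * P1 * psi (uu o w v U) N (max (t + 1) (dm ds U))) *
          (a ^ k' * P2 * psi w N (max t (dm ds R))) :=
          mul_le_mul g4 g4' (Pr_nonneg H.ok _ _) (mul_nonneg n1 ((H.uw U).ppos _).le)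
      _ = (a ^ k * P1) * (a ^ k' * P2) *
          (psi (uu o w v U) N (max (t + 1) (dm ds U)) * psi w N (max t (dm ds R))) := by ring
      _ ≤ (a ^ k * P1) * (a ^ k' * P2) *
          (W ^ 2 * (psi w N (ds b u) * psi (uu o w v U) N (max (t + 1) (dm ds (U ∪ R))))) :=
          mul_le_mul_of_nonneg_left hm (mul_nonneg n1 n2)
      _ ≤ (a ^ k * P1) * (a ^ k' * P2) *
          (a * (psi w N (ds b u) * psi (uu o w v U) N (max (t + 1) (dm ds (U ∪ R))))) := by
          refine mul_le_mul_of_nonneg_left ?_ (mul_nonneg n1 n2)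
          exact mul_le_mul_of_nonneg_right h5 (by positivity)
      _ = _ := by rw [pow_succ, pow_add]; ring

/-- OUT -/
theorem gd_out (H : KSet ds V0 V o N q w v Ds C W) (ha1 : 1 ≤ a) (ha : C * W ^ 2 ≤ a)
    {t t' k : ℕ} {S : Finset E} {x : E} (hSV : S ⊆ V0) (hox : o ∈ S → x = o)
    (htt : t + 1 ≤ t') (ht' : t' ≤ N) (hx : x ∈ S)
    (hG : Gd ds V0 V o N q w v Ds a t (t + 1) (max (t + 1) (dm ds S)) k S x) :
    Gd ds V0 V o N q w v Ds a t' (t + 1) (max t' (dm ds S)) (k + 1) S x := by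
  classical
  have hC := H.hC
  have hW := H.hW
  have hu := H.uw S
  have hWa : W ≤ a := le_trans (by nlinarith) ha
  obtain ⟨Ev, par, rk, g1, g2, g3, g4⟩ := hG
  obtain ⟨s, hs⟩ : ∃ s, s = max (t + 1) (dm ds S) := ⟨_, rfl⟩
  obtain ⟨r, hr⟩ : ∃ r, r = dm ds S + t / 2 + 1 := ⟨_, rfl⟩
  obtain ⟨D, hD⟩ : ∃ D, D = t' / 2 := ⟨_, rfl⟩
  rw [← hs] at g4
  have hloc : ∀ F F' : Finset E, (∀ e, (∃ v ∈ S, ds e v ≤ t' / 2) → (e ∈ F ↔ e ∈ F')) →
      (Ev F ↔ Ev F') := by
    intro F F' hFF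
    refine g1 F F' fun e he => hFF e ?_
    obtain ⟨v, hv, h⟩ := he
    exact ⟨v, hv, by omega⟩
  rcases le_or_gt r D with hrD | hrD
  · obtain ⟨Ch, c1, c2, c3⟩ := H.ann hSV hx hox (by omega : 1 ≤ r) hrD (by omega)
    refine ⟨fun F => Ev F ∧ Ch F, par, rk, ?_, ?_, g3, ?_⟩
    · intro F F' hFF
      exact and_congr (hloc F F' hFF) (c1 F F' fun e _ he' => hFF e ⟨x, hx, by omega⟩)
    · intro S' hS'V hSS' hoS' hfar F hFV hF
      refine ⟨g2 S' hS'V hSS' hoS' (fun v hv y hy => ?_) F hFV hF,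
        c2 S' F hS'V hFV (hSS' hx) hoS' ?_ ?_ hF⟩
      · have := hfar v hv y hy
        omega
      · intro y hy
        by_cases hyS : y ∈ S
        · left
          have := ds_le_dm' (ds := ds) hyS hx
          omega
        · right
          have := hfar x hx y (mem_sdiff.mpr ⟨hy, hyS⟩)
          rw [H.dc]
          omega
      · by_cases ho : o ∈ S
        · exact Or.inl ho
        · right
          have := hfar x hx o (mem_sdiff.mpr ⟨hoS', ho⟩)
          rw [H.dc]
          omega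
    · have hind : Pr (fun _ => q) V (fun F => Ev F ∧ Ch F) =
          Pr (fun _ => q) V Ev * Pr (fun _ => q) V Ch := by
        refine Pr_indep (S := V.filter fun e => ∃ v ∈ S, ds e v ≤ t / 2)
          (T := V.filter fun e => r ≤ ds e x ∧ ds e x ≤ D) (filter_subset _ _)
          (filter_subset _ _) ?_ ?_ ?_
        · rw [Finset.disjoint_left]
          intro e he1 he2
          obtain ⟨v, hv, h1⟩ := (mem_filter.mp he1).2
          have h2 := (mem_filter.mp he2).2
          have h3 := H.dt e v x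
          have h4 := ds_le_dm' (ds := ds) hv hx
          omega
        · intro F hF
          refine g1 _ _ fun e he => ?_
          rw [mem_inter, mem_filter]
          exact ⟨fun h => ⟨h, hF h, he⟩, fun h => h.1⟩
        · intro F hF
          refine c1 _ _ fun e he he' => ?_
          rw [mem_inter, mem_filter]
          exact ⟨fun h => ⟨h, hF h, he, he'⟩, fun h => h.1⟩
      rw [hind]
      have hmax : max t' (dm ds S) = t' := by omega
      rw [hmax, hu.pmid (by omega) ht']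
      rw [hu.pmid (s := s) (by omega) (by omega)] at g4
      obtain ⟨z, hz⟩ : ∃ z, z = uu o w v S := ⟨_, rfl⟩
      rw [← hz] at g4 c3 hu ⊢
      have zr := hu.pos r (by omega)
      have zs := hu.pos s (by omega)
      have zD := hu.pos D (by omega)
      have zt := hu.pos t' (by omega)
      have u1 : z s ≤ W * z r := by
        rcases le_total s r with h | h
        · exact hu.dbl s r (by omega) h (by omega)
        · refine (hu.mono r s (by omega) h).trans ?_
          nlinarith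
      have u2 : z D ≤ W * z t' := hu.dbl D t' (by omega) (by omega) (by omega)
      have u3 : z s * (C * (z D / z r)) ≤ a * z t' := by
        calc z s * (C * (z D / z r)) ≤ (W * z r) * (C * (z D / z r)) :=
              mul_le_mul_of_nonneg_right u1 (by positivity)
          _ = C * W * z D := by field_simp
          _ ≤ C * W * (W * z t') := mul_le_mul_of_nonneg_left u2 (by positivity)
          _ = (C * W ^ 2) * z t' := by ring
          _ ≤ a * z t' := mul_le_mul_of_nonneg_right ha zt.le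
      have hprod := H.prod_nn ha1 k (S.erase x) fun y => ds y (par y)
      calc Pr (fun _ => q) V Ev * Pr (fun _ => q) V Ch
          ≤ (a ^ k * (∏ y ∈ S.erase x, psi w N (ds y (par y))) * z s) * (C * (z D / z r)) :=
            mul_le_mul g4 c3 (Pr_nonneg H.ok _ _) (mul_nonneg hprod zs.le)
        _ = a ^ k * (∏ y ∈ S.erase x, psi w N (ds y (par y))) * (z s * (C * (z D / z r))) := by
            ring
        _ ≤ a ^ k * (∏ y ∈ S.erase x, psi w N (ds y (par y))) * (a * z t') :=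
            mul_le_mul_of_nonneg_left u3 hprod
        _ = _ := by rw [pow_succ]; ring
  · refine ⟨Ev, par, rk, hloc, ?_, g3, H.step ha1 g4 ?_⟩
    · intro S' hS'V hSS' hoS' hfar F hFV hF
      refine g2 S' hS'V hSS' hoS' (fun v hv y hy => ?_) F hFV hF
      have := hfar v hv y hy
      omega
    · refine (hu.pdbl H.hN (s' := max t' (dm ds S)) (by omega) (by omega)).trans ?_
      exact mul_le_mul_of_nonneg_right hWa (hu.ppos _).le

/-! ### components -/

/-- one step of a chain -/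
def kstp (ds : E → E → ℕ) (t : ℕ) (S : Finset E) (u v : E) : Prop := u ∈ S ∧ v ∈ S ∧ ds u v ≤ t

open scoped Classical in
/-- the component of `y` -/
noncomputable def kcmp (ds : E → E → ℕ) (t : ℕ) (S : Finset E) (y : E) : Finset E :=
  S.filter (fun z => Relation.ReflTransGen (kstp ds t S) y z)

open scoped Classical in
theorem kcmp_sub (t : ℕ) (S : Finset E) (y : E) : kcmp ds t S y ⊆ S := Finset.filter_subset _ _

open scoped Classical in
theorem mem_kcmp {t : ℕ} {S : Finset E} {y z : E} :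
    z ∈ kcmp ds t S y ↔ z ∈ S ∧ Relation.ReflTransGen (kstp ds t S) y z := by
  unfold kcmp
  rw [Finset.mem_filter]

theorem self_kcmp {t : ℕ} {S : Finset E} {y : E} (hy : y ∈ S) : y ∈ kcmp ds t S y :=
  mem_kcmp.2 ⟨hy, Relation.ReflTransGen.refl⟩

theorem kcmp_step {t : ℕ} {S : Finset E} {y u v : E} (hu : u ∈ kcmp ds t S y) (hv : v ∈ S)
    (h : ds u v ≤ t) : v ∈ kcmp ds t S y := by
  obtain ⟨h1, h2⟩ := mem_kcmp.1 hu
  exact mem_kcmp.2 ⟨hv, h2.tail ⟨h1, hv, h⟩⟩

theorem kcmp_far {t : ℕ} {S : Finset E} {y u v : E} (hu : u ∈ kcmp ds t S y) (hv : v ∈ S)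
    (h : v ∉ kcmp ds t S y) : t < ds u v := by
  by_contra hc
  exact h (kcmp_step hu hv (by omega))

/-- induction along the component -/
theorem kcmp_ind {t : ℕ} {S : Finset E} {y : E} (hy : y ∈ S) {P : E → Prop} (h0 : P y)
    (hs : ∀ u ∈ kcmp ds t S y, ∀ v ∈ kcmp ds t S y, P u → ds u v ≤ t → P v) :
    ∀ z ∈ kcmp ds t S y, P z := by
  intro z hz
  obtain ⟨-, h⟩ := mem_kcmp.1 hz
  have key : z ∈ S ∧ P z := by
    induction h with
    | refl => exact ⟨hy, h0⟩
    | tail hab hbc ih =>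
      have hb := mem_kcmp.2 ⟨hbc.1, hab⟩
      have hc := mem_kcmp.2 ⟨hbc.2.1, hab.tail hbc⟩
      exact ⟨hbc.2.1, hs _ hb _ hc (ih hb).2 hbc.2.2⟩
  exact key.2

theorem kcmp_conn (H : KSet ds V0 V o N q w v Ds C W) {t : ℕ} {S : Finset E} {y : E}
    (hy : y ∈ S) : conn ds t (kcmp ds t S y) := by
  intro A hA hne hne'
  by_contra hcon
  push Not at hcon
  by_cases hyA : y ∈ A
  · obtain ⟨z, hz⟩ := hne'
    rw [Finset.mem_sdiff] at hz
    refine hz.2 (kcmp_ind hy (P := fun z => z ∈ A) hyA ?_ z hz.1)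
    intro u hu v hv huA huv
    by_contra hvA
    have := hcon u huA v (Finset.mem_sdiff.2 ⟨hv, hvA⟩)
    omega
  · obtain ⟨z, hz⟩ := hne
    refine kcmp_ind hy (P := fun z => z ∉ A) hyA ?_ z (hA hz) hz
    intro u hu v hv huA huv hvA
    have := hcon v hvA u (Finset.mem_sdiff.2 ⟨hu, huA⟩)
    rw [H.dc] at this
    omega

/-- a `0`-connected set lies at one position -/
theorem conn_zero (H : KSet ds V0 V o N q w v Ds C W) {S : Finset E} {x : E} (hx : x ∈ S)
    (hc : conn ds 0 S) : ∀ y ∈ S, ds y x = 0 := by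
  by_contra hcon
  push Not at hcon
  obtain ⟨z, hz, hzx⟩ := hcon
  obtain ⟨u, hu, v, hv, huv⟩ := hc (S.filter (fun y => ds y x = 0)) (Finset.filter_subset _ _)
    ⟨x, Finset.mem_filter.2 ⟨hx, H.d0 x⟩⟩
    ⟨z, Finset.mem_sdiff.2 ⟨hz, fun h => hzx (Finset.mem_filter.1 h).2⟩⟩
  rw [Finset.mem_filter] at hu
  rw [Finset.mem_sdiff, Finset.mem_filter] at hv
  refine hv.2 ⟨hv.1, ?_⟩
  have h1 := H.dt v u x
  rw [H.dc v u] at h1
  omega

/-- the growth of the component of `x` by merging the other components -/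
theorem gd_grow (H : KSet ds V0 V o N q w v Ds C W) (ha1 : 1 ≤ a) (ha : C * W ^ 2 ≤ a) {t : ℕ}
    {S : Finset E} {x : E} (hSV : S ⊆ V0) (hox : o ∈ S → x = o) (hc : conn ds (t + 1) S)
    (hcmp : ∀ b ∈ S, (o ∈ kcmp ds t S b → b = o) →
      Gd ds V0 V o N q w v Ds a t (t + 1) (max t (dm ds (kcmp ds t S b)))
      (4 * (kcmp ds t S b).card - 3) (kcmp ds t S b) b) :
    ∀ m : ℕ, ∀ U : Finset E, (S \ U).card = m → U ⊆ S → U ≠ S → x ∈ U →
      (∀ y ∈ U, ∀ z ∈ S, z ∉ U → t < ds y z) →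
      Gd ds V0 V o N q w v Ds a t (t + 1) (max (t + 1) (dm ds U)) (4 * U.card - 2) U x →
      Gd ds V0 V o N q w v Ds a t (t + 1) (max (t + 1) (dm ds S)) (4 * S.card - 4) S x := by
  intro m
  induction m using Nat.strong_induction_on with
  | _ m ihm =>
    intro U hUm hUS hUne hxU hcl hG
    have hne : (S \ U).Nonempty := by
      rw [Finset.sdiff_nonempty]
      intro h
      exact hUne (Finset.Subset.antisymm hUS h)
    obtain ⟨u, hu, b, hb', hub⟩ := hc U hUS ⟨x, hxU⟩ hne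
    obtain ⟨hbS, hbU⟩ := Finset.mem_sdiff.1 hb'
    have hRS := kcmp_sub (ds := ds) t S b
    have hbR : b ∈ kcmp ds t S b := self_kcmp hbS
    have hRU : ∀ z ∈ kcmp ds t S b, z ∉ U := by
      refine kcmp_ind hbS hbU ?_
      intro v hv w hw hvU hvw hwU
      have := hcl w hwU v (hRS hv) hvU
      rw [H.dc] at this
      omega
    have hoR : o ∉ kcmp ds t S b := by
      intro h
      have := hox (hRS h)
      subst this
      exact hRU _ h hxU
    have hdisj : Disjoint U (kcmp ds t S b) := by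
      rw [Finset.disjoint_right]
      exact hRU
    have hfar : ∀ v ∈ U, ∀ w ∈ kcmp ds t S b, t < ds v w := fun v hv w hw =>
      hcl v hv w (hRS hw) (hRU w hw)
    have hM := gd_merge H ha1 ha (hUS.trans hSV) (hRS.trans hSV) hoR hxU hu hbR
      (by rw [H.dc]; exact hub) hfar hG (hcmp b hbS (fun h => absurd h hoR))
    have hcard : (U ∪ kcmp ds t S b).card = U.card + (kcmp ds t S b).card :=
      Finset.card_union_of_disjoint hdisj
    have hc1 : 1 ≤ U.card := Finset.card_pos.2 ⟨x, hxU⟩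
    have hc2 : 1 ≤ (kcmp ds t S b).card := Finset.card_pos.2 ⟨b, hbR⟩
    have e : 4 * U.card - 2 + (4 * (kcmp ds t S b).card - 3) + 1 =
        4 * (U ∪ kcmp ds t S b).card - 4 := by omega
    rw [e] at hM
    have hU'S : U ∪ kcmp ds t S b ⊆ S := Finset.union_subset hUS hRS
    by_cases hfin : U ∪ kcmp ds t S b = S
    · rw [hfin] at hM
      exact hM
    · refine ihm (S \ (U ∪ kcmp ds t S b)).card ?_ (U ∪ kcmp ds t S b) rfl hU'S hfin
        (Finset.mem_union_left _ hxU) ?_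
        (gd_mono H hM le_rfl le_rfl (by omega) ha1)
      · rw [← hUm]
        apply Finset.card_lt_card
        rw [Finset.ssubset_iff_of_subset
          (Finset.sdiff_subset_sdiff (Finset.Subset.refl S) Finset.subset_union_left)]
        exact ⟨b, hb', fun h => (Finset.mem_sdiff.1 h).2 (Finset.mem_union_right _ hbR)⟩
      · intro y hy z hz hzn
        rw [Finset.mem_union, not_or] at hzn
        rcases Finset.mem_union.1 hy with hy | hy
        · exact hcl y hy z hz hzn.1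
        · exact kcmp_far hy hz hzn.2

/-- the whole set from its components -/
theorem gd_whole (H : KSet ds V0 V o N q w v Ds C W) (ha1 : 1 ≤ a) (ha : C * W ^ 2 ≤ a) {t : ℕ}
    {S : Finset E} {x : E} (hSV : S ⊆ V0) (hox : o ∈ S → x = o) (hx : x ∈ S)
    (hc : conn ds (t + 1) S) (hall : kcmp ds t S x ≠ S)
    (hcmp : ∀ b ∈ S, (o ∈ kcmp ds t S b → b = o) →
      Gd ds V0 V o N q w v Ds a t (t + 1) (max t (dm ds (kcmp ds t S b)))
      (4 * (kcmp ds t S b).card - 3) (kcmp ds t S b) b) :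
    Gd ds V0 V o N q w v Ds a t (t + 1) (max (t + 1) (dm ds S)) (4 * S.card - 4) S x := by
  have h1 := gd_start H ha1 ha (hcmp x hx (fun h => hox (kcmp_sub _ _ _ h)))
  have hc1 : 1 ≤ (kcmp ds t S x).card := Finset.card_pos.2 ⟨x, self_kcmp hx⟩
  have e1 : 4 * (kcmp ds t S x).card - 3 + 1 = 4 * (kcmp ds t S x).card - 2 := by omega
  rw [e1] at h1
  exact gd_grow H ha1 ha hSV hox hc hcmp _ (kcmp ds t S x) rfl (kcmp_sub t S x) hall
    (self_kcmp hx) (fun y hy z hz hzn => kcmp_far hy hz hzn) h1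

/-- KEY' -/
theorem gd_key (H : KSet ds V0 V o N q w v Ds C W) (ha1 : 1 ≤ a) (ha : C * W ^ 2 ≤ a) :
    ∀ (t t' : ℕ) (S : Finset E) (x : E), S ⊆ V0 → (o ∈ S → x = o) → t ≤ t' → t' ≤ N →
      x ∈ S → conn ds t S →
      Gd ds V0 V o N q w v Ds a t' t (max t' (dm ds S)) (4 * S.card - 3) S x := by
  intro t
  induction t with
  | zero =>
    intro t' S x hSV hox _ ht' hx hc
    have h0 := conn_zero H hx hc
    have hcard : 1 ≤ S.card := Finset.card_pos.2 ⟨x, hx⟩
    exact gd_mono H (gd_base H ha hSV hox ht' hx h0) le_rfl le_rfl (by omega) ha1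
  | succ t ih =>
    intro t' S x hSV hox htt' ht' hx hc
    by_cases hall : kcmp ds t S x = S
    · have hct : conn ds t S := by
        rw [← hall]
        exact kcmp_conn H hx
      exact gd_mono H (ih t' S x hSV hox (by omega) ht' hx hct) (Nat.le_succ t) le_rfl
        le_rfl ha1
    · have hcmp : ∀ b ∈ S, (o ∈ kcmp ds t S b → b = o) →
          Gd ds V0 V o N q w v Ds a t (t + 1) (max t (dm ds (kcmp ds t S b)))
          (4 * (kcmp ds t S b).card - 3) (kcmp ds t S b) b := by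
        intro b hb' hob
        exact gd_mono H (ih t (kcmp ds t S b) b ((kcmp_sub _ _ _).trans hSV) hob le_rfl
          (by omega) (self_kcmp hb') (kcmp_conn H hb')) (Nat.le_succ t) le_rfl le_rfl ha1
      have h2 := gd_whole H ha1 ha hSV hox hx hc hall hcmp
      have h3 := gd_out H ha1 ha hSV hox htt' ht' hx h2
      have hc3 : 1 ≤ S.card := Finset.card_pos.2 ⟨x, hx⟩
      exact gd_mono H h3 le_rfl le_rfl (by omega) ha1

/-- KEY for a set with the root, of diameter at most `N`. -/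
theorem key2 (H : KSet ds V0 V o N q w v Ds C W) (ha1 : 1 ≤ a) (ha : C * W ^ 2 ≤ a)
    (hdiam : ∀ x ∈ V0, ∀ y ∈ V0, ds x y ≤ N) {S : Finset E} (hSV : S ⊆ V0) (ho : o ∈ S) :
    ∃ (par : E → E) (rk : E → ℕ), (∀ y ∈ S, y ≠ o → par y ∈ S ∧ rk (par y) < rk y) ∧
      Pr (fun _ => q) V (Ds S) ≤
        a ^ (4 * S.card) * (∏ y ∈ S.erase o, psi w N (ds y (par y))) * v N := by
  have hc : conn ds N S := by
    intro A hA hne hne'
    obtain ⟨x, hx⟩ := hne
    obtain ⟨y, hy⟩ := hne'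
    exact ⟨x, hx, y, hy, hdiam x (hSV (hA hx)) y (hSV (mem_sdiff.1 hy).1)⟩
  obtain ⟨Ev, par, rk, -, g2, g3, g4⟩ := gd_mono H
    (gd_key H ha1 ha N N S o hSV (fun _ => rfl) le_rfl le_rfl ho hc) le_rfl le_rfl
    (k' := 4 * S.card) (by omega) ha1
  refine ⟨par, rk, fun y hy hyx => ⟨(g3 y hy hyx).1, (g3 y hy hyx).2.1⟩, ?_⟩
  refine (Pr_mono H.ok (B := Ev) fun F hFV hF => ?_).trans (g4.trans (le_of_eq ?_))
  · refine g2 S hSV (Finset.Subset.refl S) ho (fun v _ y hy => ?_) F hFV hF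
    rw [Finset.sdiff_self] at hy
    exact absurd hy (Finset.notMem_empty y)
  · congr 1
    unfold uu psi
    rw [if_pos ho]
    congr 1
    have := H.hN
    omega

end

end Pool.Agent.H29.TH
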