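import Pool.Graph.R_pool_sql_team_seeded_3dad9d7b.NH39.W.Ann3
import Pool.Graph.R_pool_sql_team_seeded_3dad9d7b.NH39.W.Sum1
import Pool.Graph.R_pool_sql_team_seeded_b0a926ef.R960.OneArm
import Pool.Agent.H29.TH.Key

/-!
The annuli around a group of edges which matter together for the one-arm event.
-/

set_option autoImplicit false

namespace Pool.Agent.H29.TH

open H974 H12S H389NS Finset
open Pool.Agent.NH39 (dd InB OutB ann_cross A4a_congr)
open Pool.Agent.NH39.W (Dl sg_zero wt)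

/-- The root. -/
def oo : Edg := (0, 0, true)

/-- Position of an edge. -/
def ps (e : Edg) : ℤ × ℤ := (e.1, e.2.1)

/-- The indicator of the one-arm event. -/
noncomputable def fA (L : ℕ) (F : Finset Edg) : ℝ := ind (Arm L F)

/-- All the elements of `T` except perhaps the root matter together. -/
def Dsr (L : ℕ) (T F : Finset Edg) : Prop := Dl (fA L) T F ≠ 0 ∨ Dl (fA L) (T.erase oo) F ≠ 0

/-- One arm through an annulus. -/
def Cr (r D : ℕ) (F : Finset Edg) : Prop := ∃ u ∈ bdB (0, 0) r, ∃ w ∈ bdB (0, 0) D,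
  Reach ((↑F : Set Edg) ∩ ↑(blk (0, 0) D \ blk (0, 0) r)) u w

theorem dd_self (e : Edg) : dd e e = 0 := by unfold dd; simp

theorem dd_comm (e f : Edg) : dd e f = dd f e := by
  unfold dd
  rw [← Int.natAbs_neg (e.1 - f.1), ← Int.natAbs_neg (e.2.1 - f.2.1)]
  congr 2 <;> ring

theorem dd_tri (e f g : Edg) : dd e g ≤ dd e f + dd f g := by
  unfold dd
  omega

theorem ann_dd {x e : Edg} {r D : ℕ} (h : e ∈ blk (ps x) D \ blk (ps x) r) :
    r ≤ dd e x ∧ dd e x ≤ D := by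
  obtain ⟨x1, x2, xb⟩ := x
  obtain ⟨e1, e2, _ | _⟩ := e
  · rw [mem_sdiff] at h
    unfold blk ps at h
    unfold dd
    simp only [mem_RE_false] at h
    simp only
    omega
  · rw [mem_sdiff] at h
    unfold blk ps at h
    unfold dd
    simp only [mem_RE_true] at h
    simp only
    omega

theorem blk_sub_box {x : Edg} {D L : ℕ} (h1 : |x.1| + D ≤ L) (h2 : |x.2.1| + D ≤ L) :
    blk (ps x) D ⊆ boxE L := by
  have i1 := abs_le.mp (le_refl |x.1|)
  have i2 := abs_le.mp (le_refl |x.2.1|)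
  unfold blk boxE ps
  exact RE_subset (by simp only; omega) (by simp only; omega) (by simp only; omega)
    (by simp only; omega)

/-- A pivotal edge has four arms through the annulus. -/
theorem det4 {L : ℕ} {x : Edg} {r D : ℕ} (hr : 1 ≤ r) (hrD : r ≤ D) (hx1 : |x.1| + D ≤ L)
    (hx2 : |x.2.1| + D ≤ L) (h0 : D < dd oo x) {G : Finset Edg}
    (h1 : Arm L (insert x G)) (h2 : ¬ Arm L G) : A4a (ps x) r D (↑G : Set Edg) := by
  obtain ⟨v, hv, hR⟩ := h1
  obtain ⟨H, hH⟩ : ∃ H : Set Edg, H = (↑G : Set Edg) ∩ ↑(boxE L) := ⟨_, rfl⟩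
  have hR' : Reach (insert x H) (0, 0) v := by
    refine hR.mono ?_
    rintro e ⟨he1, he2⟩
    rw [Finset.coe_insert] at he1
    rcases he1 with he1 | he1
    · exact Or.inl he1
    · right; rw [hH]; exact ⟨he1, he2⟩
  have hno : ¬ Reach H (0, 0) v := fun h => h2 ⟨v, hv, by rw [← hH]; exact h⟩
  -- the two ends
  have hs : InB (ps x) r (src x) := by
    obtain ⟨a, b, t⟩ := x
    unfold InB ps
    simp
  have ht : InB (ps x) r (tgt x) := by
    obtain ⟨a, b, _ | _⟩ := x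
    · unfold InB ps
      simp only [tgt_false, sub_self, abs_zero, add_sub_cancel_left, abs_one]
      exact ⟨by positivity, by exact_mod_cast hr⟩
    · unfold InB ps
      simp only [tgt_true, sub_self, abs_zero, add_sub_cancel_left, abs_one]
      exact ⟨by exact_mod_cast hr, by positivity⟩
  have ho : OutB (ps x) D (0, 0) := by
    obtain ⟨a, b, t⟩ := x
    unfold dd oo at h0
    unfold OutB ps
    simp only at h0 ⊢
    rcases lt_max_iff.1 h0 with h | h
    · left; rw [le_abs]; omega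
    · right; rw [le_abs]; omega
  have hvo : OutB (ps x) D v := by
    obtain ⟨a, b, t⟩ := x
    obtain ⟨-, hv2⟩ := hv
    unfold OutB ps
    simp only at hx1 hx2 ⊢
    have i1 := abs_le.mp (le_refl |a|)
    have i2 := abs_le.mp (le_refl |b|)
    rcases hv2 with h | h | h | h
    · left; rw [h, le_abs]; omega
    · left; rw [h, le_abs]; omega
    · right; rw [h, le_abs]; omega
    · right; rw [h, le_abs]; omega
  have key : ∀ a b : Vtx, InB (ps x) r a → InB (ps x) r b → Reach H (0, 0) a → Reach H b v →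
      A4a (ps x) r D (↑G : Set Edg) := by
    intro a b ha hb ra rb
    obtain ⟨u1, hu1, w1, hw1, p1, p2⟩ := ann_cross hrD ha ho ra.symm
    obtain ⟨u2, hu2, w2, hw2, p3, p4⟩ := ann_cross hrD hb hvo rb
    have hsub : H ∩ ↑(blk (ps x) D \ blk (ps x) r) ⊆
        (↑G : Set Edg) ∩ ↑(blk (ps x) D \ blk (ps x) r) := by
      rw [hH]
      rintro e ⟨⟨k1, -⟩, k2⟩
      exact ⟨k1, k2⟩
    have hsub2 : (↑G : Set Edg) ∩ ↑(blk (ps x) D \ blk (ps x) r) ⊆ H := by
      rw [hH]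
      rintro e ⟨k1, k2⟩
      refine ⟨k1, ?_⟩
      rw [Finset.mem_coe, mem_sdiff] at k2
      exact blk_sub_box hx1 hx2 k2.1
    refine ⟨u1, hu1, u2, hu2, ⟨w1, hw1, p1.mono hsub⟩, ⟨w2, hw2, p3.mono hsub⟩, ?_⟩
    intro hc
    apply hno
    have q1 : Reach H u1 w1 := p1.mono Set.inter_subset_left
    have q2 : Reach H u2 w2 := p3.mono Set.inter_subset_left
    have q3 : Reach H u1 u2 := hc.mono hsub2
    exact ((((ra.trans p2).trans q1.symm).trans q3).trans q2).trans (p4.symm.trans rb)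
  rcases reach_insert hR' with h | ⟨k1, k2⟩ | ⟨k1, k2⟩
  · exact absurd (h.mono Set.sdiff_subset) hno
  · exact key _ _ hs ht (k1.mono Set.sdiff_subset) (k2.mono Set.sdiff_subset)
  · exact key _ _ ht hs (k1.mono Set.sdiff_subset) (k2.mono Set.sdiff_subset)

theorem congr_ann {x : Edg} {r D : ℕ} {S F T : Finset Edg} (hT : T ⊆ S)
    (hS : ∀ y ∈ S, dd y x < r ∨ D < dd y x) :
    (↑((F \ S) ∪ T) : Set Edg) ∩ ↑(blk (ps x) D \ blk (ps x) r) =
      (↑F : Set Edg) ∩ ↑(blk (ps x) D \ blk (ps x) r) := by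
  ext e
  constructor
  · rintro ⟨h1, h2⟩
    have h3 := ann_dd (Finset.mem_coe.1 h2)
    have h4 : e ∉ S := fun h => by rcases hS e h with h | h <;> omega
    refine ⟨?_, h2⟩
    rw [Finset.mem_coe, mem_union, mem_sdiff] at h1
    rcases h1 with h1 | h1
    · exact h1.1
    · exact absurd (hT h1) h4
  · rintro ⟨h1, h2⟩
    have h3 := ann_dd (Finset.mem_coe.1 h2)
    have h4 : e ∉ S := fun h => by rcases hS e h with h | h <;> omega
    refine ⟨?_, h2⟩
    rw [Finset.mem_coe, mem_union, mem_sdiff]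
    exact Or.inl ⟨h1, h4⟩

/-- The annuli around the groups without the root. -/
theorem dl_w {L : ℕ} {x : Edg} {r D : ℕ} (hr : 1 ≤ r) (hrD : r ≤ D) (hx1 : |x.1| + D ≤ L)
    (hx2 : |x.2.1| + D ≤ L) (h0 : D < dd oo x) {S F : Finset Edg} (hxS : x ∈ S)
    (hS : ∀ y ∈ S, dd y x < r ∨ D < dd y x) (hD : Dl (fA L) S F ≠ 0) :
    A4a (ps x) r D (↑F : Set Edg) := by
  by_contra hno
  apply hD
  unfold Dl
  refine sg_zero hxS (fun T => fA L ((F \ S) ∪ T)) ?_
  intro T hT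
  have hTS : T ⊆ S := hT.trans (erase_subset _ _)
  show fA L ((F \ S) ∪ insert x T) = fA L ((F \ S) ∪ T)
  rw [Finset.union_insert]
  unfold fA
  apply ind_congr
  constructor
  · intro h
    by_contra hc
    have h4 := det4 hr hrD hx1 hx2 h0 h hc
    rw [A4a_congr (congr_ann hTS hS)] at h4
    exact hno h4
  · intro h
    exact h.mono (subset_insert _ _)

theorem cr_of_arm {L r D : ℕ} (hrD : r ≤ D) (hDL : D ≤ L) {G : Finset Edg} (h : Arm L G) :
    Cr r D G := by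
  obtain ⟨v, hv, hR⟩ := h
  have hi : InB (0, 0) r (0, 0) := by unfold InB; simp
  have hvo : OutB (0, 0) D v := by
    obtain ⟨-, hv2⟩ := hv
    unfold OutB
    simp only
    rcases hv2 with h | h | h | h
    · left; rw [h, le_abs]; omega
    · left; rw [h, le_abs]; omega
    · right; rw [h, le_abs]; omega
    · right; rw [h, le_abs]; omega
  obtain ⟨u, hu, w, hw, p1, -⟩ := ann_cross hrD hi hvo hR
  exact ⟨u, hu, w, hw, p1.mono (by rintro e ⟨⟨k1, -⟩, k2⟩; exact ⟨k1, k2⟩)⟩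

/-- The annuli around the root. -/
theorem dl_v {L : ℕ} {r D : ℕ} (hrD : r ≤ D) (hDL : D ≤ L) {S F : Finset Edg}
    (hS : ∀ y ∈ S, dd y oo < r ∨ D < dd y oo) (hD : Dl (fA L) S F ≠ 0) : Cr r D F := by
  by_contra hno
  apply hD
  unfold Dl
  apply Finset.sum_eq_zero
  intro T hT
  rw [mem_powerset] at hT
  have h1 : fA L ((F \ S) ∪ T) = 0 := by
    unfold fA
    apply ind_not_of
    intro h
    apply hno
    obtain ⟨u, hu, w, hw, p⟩ := cr_of_arm hrD hDL h
    have e := congr_ann (x := oo) (F := F) hT hS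
    have e0 : ps oo = (0, 0) := rfl
    rw [e0] at e
    rw [e] at p
    exact ⟨u, hu, w, hw, p⟩
  rw [h1, mul_zero]

theorem Cr_local {r D : ℕ} {F F' : Finset Edg}
    (h : ∀ e, r ≤ dd e oo → dd e oo ≤ D → (e ∈ F ↔ e ∈ F')) : Cr r D F ↔ Cr r D F' := by
  have e : (↑F : Set Edg) ∩ ↑(blk (0, 0) D \ blk (0, 0) r) =
      (↑F' : Set Edg) ∩ ↑(blk (0, 0) D \ blk (0, 0) r) := by
    ext e
    constructor
    · rintro ⟨h1, h2⟩
      have h3 := ann_dd (x := oo) (e := e) (r := r) (D := D) (Finset.mem_coe.1 h2)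
      exact ⟨(h e h3.1 h3.2).1 h1, h2⟩
    · rintro ⟨h1, h2⟩
      have h3 := ann_dd (x := oo) (e := e) (r := r) (D := D) (Finset.mem_coe.1 h2)
      exact ⟨(h e h3.1 h3.2).2 h1, h2⟩
  unfold Cr
  rw [e]

theorem A4_local {x : Edg} {r D : ℕ} {F F' : Finset Edg}
    (h : ∀ e, r ≤ dd e x → dd e x ≤ D → (e ∈ F ↔ e ∈ F')) :
    A4a (ps x) r D (↑F : Set Edg) ↔ A4a (ps x) r D (↑F' : Set Edg) := by
  apply A4a_congr
  ext e
  constructor
  · rintro ⟨h1, h2⟩
    have h3 := ann_dd (Finset.mem_coe.1 h2)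
    exact ⟨(h e h3.1 h3.2).1 h1, h2⟩
  · rintro ⟨h1, h2⟩
    have h3 := ann_dd (Finset.mem_coe.1 h2)
    exact ⟨(h e h3.1 h3.2).2 h1, h2⟩

/-! ### the one-arm bound -/

/-- The weight of the root. -/
noncomputable def vt (p : ℝ) (n : ℕ) : ℝ :=
  max ((n:ℝ) ^ (-(5/48) : ℝ)) ((p - 1/2) ^ (5/36 : ℝ))

theorem pr_Cr {p : ℝ} (h0 : 0 ≤ p) (h1 : p ≤ 1) {r D L : ℕ} (hD : D ≤ L) (hr : r ≤ D) :
    Pr (fun _ => p) (boxE L) (Cr r D) ≤ barm p r D := by
  rw [← pr_BArm p (boxE_mono hD)]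
  apply Pr_mono (okq h0 h1)
  rintro F - ⟨u, hu, w, hw, hR⟩
  refine ⟨u, w, ?_, ?_, hR.mono ?_⟩
  · obtain ⟨a1, a2, -⟩ := hu
    rw [sub_zero, abs_le] at a1 a2
    exact ⟨a1, a2⟩
  · obtain ⟨a1, a2, a3⟩ := hw
    rw [sub_zero] at a1 a2
    rw [sub_zero, sub_zero] at a3
    rw [abs_le] at a1 a2
    refine ⟨⟨a1, a2⟩, ?_⟩
    rcases a3 with a3 | a3
    · rcases abs_cases w.1 with h | h <;> omega
    · rcases abs_cases w.2 with h | h <;> omega
  · rintro e ⟨k1, k2⟩
    refine ⟨k1, ?_⟩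
    rw [Finset.mem_coe, mem_sdiff] at k2
    rw [Finset.mem_coe, ← S4C_blk0]
    exact k2.1

theorem vt_pos {p : ℝ} {n : ℕ} (hn : 1 ≤ n) : 0 < vt p n := by
  have : (0:ℝ) < n := by exact_mod_cast hn
  exact lt_of_lt_of_le (by positivity) (le_max_left _ _)

theorem vt_anti {p : ℝ} {r s : ℕ} (hr : 1 ≤ r) (hs : r ≤ s) : vt p s ≤ vt p r := by
  have hr0 : (0:ℝ) < r := by exact_mod_cast hr
  exact max_le_max (Real.rpow_le_rpow_of_nonpos hr0 (by exact_mod_cast hs) (by norm_num)) le_rfl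

theorem vt_one {p : ℝ} (h1 : 1/2 ≤ p) (h2 : p ≤ 1) : vt p 1 = 1 := by
  unfold vt
  rw [Nat.cast_one, Real.one_rpow]
  apply max_eq_left
  exact Real.rpow_le_one (by linarith) (by linarith) (by norm_num)

/-- Comparison of `vt` at two radii. -/
theorem vt_rel {p : ℝ} (h1 : 1/2 ≤ p) {r s : ℕ} (hr : 1 ≤ r) (hs : r ≤ s) :
    ((r:ℝ) / s) ^ (5/48 : ℝ) * vt p r ≤ vt p s := by
  have hr0 : (0:ℝ) < r := by exact_mod_cast hr
  have hs0 : (0:ℝ) < s := by exact_mod_cast (by omega : 0 < s)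
  have hrs : (r:ℝ) ≤ s := by exact_mod_cast hs
  have hle : ((r:ℝ) / s) ^ (5/48 : ℝ) ≤ 1 :=
    Real.rpow_le_one (by positivity) ((div_le_one hs0).2 hrs) (by norm_num)
  have hnn : 0 ≤ ((r:ℝ) / s) ^ (5/48 : ℝ) := by positivity
  unfold vt
  rw [mul_max_of_nonneg _ _ hnn]
  apply max_le_max
  · rw [Real.div_rpow hr0.le hs0.le, Real.rpow_neg hr0.le, Real.rpow_neg hs0.le]
    apply le_of_eq
    field_simp
  · exact mul_le_of_le_one_left (Real.rpow_nonneg (by linarith) _) hle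

theorem vt_doub {p : ℝ} (h1 : 1/2 ≤ p) {r s M : ℕ} (hr : 1 ≤ r) (hs : r ≤ s) (hM : 1 ≤ M)
    (h8 : s ≤ M * r) : vt p r ≤ M * vt p s := by
  have hr0 : (0:ℝ) < r := by exact_mod_cast hr
  have hs0 : (0:ℝ) < s := by exact_mod_cast (by omega : 0 < s)
  have hM0 : (0:ℝ) < M := by exact_mod_cast hM
  have hM1 : (1:ℝ) ≤ M := by exact_mod_cast hM
  have h := vt_rel h1 hr hs
  have h2 : (1:ℝ) / M ≤ ((r:ℝ) / s) ^ (5/48 : ℝ) := by
    have h3 : (1:ℝ) / M ≤ r / s := by
      rw [div_le_div_iff₀ hM0 hs0, one_mul]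
      have : (s:ℝ) ≤ M * r := by exact_mod_cast h8
      linarith
    have h4 : (1:ℝ) / M ≤ (1 / M) ^ (5/48 : ℝ) := by
      have := Real.rpow_le_rpow_of_exponent_ge (x := (1:ℝ) / M) (by positivity)
        ((div_le_one hM0).2 hM1) (show (5/48 : ℝ) ≤ 1 by norm_num)
      rwa [Real.rpow_one] at this
    exact h4.trans (Real.rpow_le_rpow (by positivity) h3 (by norm_num))
  have h5 := mul_le_mul_of_nonneg_right h2 (vt_pos (p := p) hr).le
  have h6 := h5.trans h
  rw [div_mul_eq_mul_div, one_mul, div_le_iff₀ hM0] at h6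
  linarith

/-- The one-arm bound for an annulus. -/
theorem barm_le : ∃ C : ℝ, 1 ≤ C ∧ ∀ p : ℝ, 1/2 ≤ p → p ≤ 1 → ∀ r D : ℕ, 1 ≤ r → r ≤ D →
    barm p r D ≤ C * (vt p D / vt p r) := by
  obtain ⟨C1, hC1, hu⟩ := Pool.Agent.R960.arm_sup_upper
  obtain ⟨c2, hc2, hl⟩ := Pool.Agent.R960.arm_sup_lower
  obtain ⟨K, hK⟩ : ∃ K : ℝ, K = (2:ℝ) ^ 188 := ⟨_, rfl⟩
  have hK0 : 0 < K := by rw [hK]; positivity
  refine ⟨3 + 3 * K * C1 / c2, by have : 0 < 3 * K * C1 / c2 := by positivity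
                                  linarith, ?_⟩
  intro p hp hp1 r D hr hrD
  have hvr := vt_pos (p := p) hr
  have hvD := vt_pos (p := p) (le_trans hr hrD)
  have hpos : 0 < 3 * K * C1 / c2 := by positivity
  rcases Nat.lt_or_ge D (3 * r) with h | h
  · have h1 : barm p r D ≤ 1 := Pr_le_one (okq (by linarith) hp1) _ _
    have h2 := vt_doub hp hr hrD (by norm_num : 1 ≤ 3) h.le
    have h3 : 1 ≤ 3 * (vt p D / vt p r) := by
      rw [← mul_div_assoc, le_div_iff₀ hvr]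
      push_cast at h2
      linarith
    have h4 : 0 ≤ 3 * K * C1 / c2 * (vt p D / vt p r) := by positivity
    calc barm p r D ≤ 1 := h1
      _ ≤ 3 * (vt p D / vt p r) := h3
      _ ≤ _ := by rw [add_mul]; linarith
  · have hg := arm_glue hp hp1 (by omega : 0 < r) h
    have h1 := hu p hp hp1 D (by omega)
    have h2 : c2 * vt p (3 * r) ≤ arm p (3 * r) := by
      have h5 := hl p hp hp1 (3 * r)
      unfold vt
      rw [mul_max_of_nonneg _ _ hc2.le]
      exact max_le (h5.2 (by omega)) h5.1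
    have h3 := vt_doub hp hr (by omega : r ≤ 3 * r) (by norm_num : 1 ≤ 3) le_rfl
    push_cast at h3
    have hb : 0 ≤ barm p r D := Pr_nonneg (okq (by linarith) hp1) _ _
    have h4 : c2 * (vt p r / 3) ≤ arm p (3 * r) := by
      refine le_trans ?_ h2
      apply mul_le_mul_of_nonneg_left _ hc2.le
      linarith
    have h5 : (1/2 : ℝ) ^ 188 * (c2 * (vt p r / 3) * barm p r D) ≤ C1 * vt p D :=
      le_trans (mul_le_mul_of_nonneg_left (mul_le_mul_of_nonneg_right h4 hb) (by positivity))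
        (hg.trans h1)
    have e1 : (1/2 : ℝ) ^ 188 = 1 / K := by rw [hK]; norm_num
    rw [e1] at h5
    have h6 : barm p r D ≤ 3 * K * C1 / c2 * (vt p D / vt p r) := by
      rw [div_mul_div_comm, le_div_iff₀ (by positivity)]
      rw [div_mul_eq_mul_div, one_mul, div_le_iff₀ hK0] at h5
      nlinarith
    have h7 : 0 ≤ 3 * (vt p D / vt p r) := by positivity
    rw [add_mul]
    linarith

end Pool.Agent.H29.TH
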