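import Pool.Graph.R_pool_sql_team_seeded_3dad9d7b.NH39.W.SecA

/-!
Analytic continuation of a real function with bounds for all its derivatives to a sector.
-/

set_option autoImplicit false

namespace Pool.Agent.H29.SecT

open Set Filter Topology
open Pool.Agent.NH39.W.SecA (co G tay G_diff G_sum norm_sub_re)
open scoped ContDiff Nat

/-- the hypotheses -/
structure Hyp (f : ℝ → ℝ) (C β : ℝ) : Prop where
  hC : 1 ≤ C
  hβ : 0 ≤ β
  smooth : ∀ p : ℝ, 1/2 < p → p < 1 → ContDiffAt ℝ ∞ f p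
  der : ∀ p : ℝ, 1/2 < p → p < 1 → ∀ k : ℕ,
    |iteratedDeriv k f p| ≤ C ^ (k + 1) * k.factorial * (p - 1/2) ^ (β - k)

section
variable {f : ℝ → ℝ} {C β : ℝ}

theorem co_le (H : Hyp f C β) {p : ℝ} (h0 : 1/2 < p) (h1 : p < 1) (k : ℕ) :
    |co f p k| ≤ (C * (p - 1/2) ^ β) * (C / (p - 1/2)) ^ k := by
  have hs : 0 < p - 1/2 := by linarith
  have hf : (0 : ℝ) < k ! := by exact_mod_cast Nat.factorial_pos k
  unfold co
  rw [abs_div, abs_of_pos hf, div_le_iff₀ hf]
  refine (H.der p h0 h1 k).trans (le_of_eq ?_)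
  rw [Real.rpow_sub_natCast hs.ne', div_pow, pow_succ]
  obtain ⟨s, hs'⟩ : ∃ s : ℝ, s = p - 1/2 := ⟨_, rfl⟩
  rw [← hs'] at hs ⊢
  field_simp

/-- `G f p` is holomorphic near `p` -/
theorem G_hol (H : Hyp f C β) {p : ℝ} (h0 : 1/2 < p) (h1 : p < 1) :
    DifferentiableOn ℂ (G f p) (Metric.ball (p : ℂ) ((p - 1/2) / (4 * C))) := by
  have hs : 0 < p - 1/2 := by linarith
  have hC : 0 < C := lt_of_lt_of_le one_pos H.hC
  refine (G_diff (div_pos hC hs) (co_le H h0 h1)).mono (Metric.ball_subset_ball ?_)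
  generalize p - 1/2 = s at hs
  rw [div_le_div_iff₀ (by positivity) (by positivity)]
  field_simp
  norm_num

/-- `G f p` extends `f` -/
theorem G_real (H : Hyp f C β) {p : ℝ} (h0 : 1/2 < p) (h1 : p < 1) {x : ℝ}
    (hx0 : 1/2 < x) (hx1 : x < 1) (hx : |x - p| < (p - 1/2) / (4 * C)) : G f p x = f x := by
  have hs : 0 < p - 1/2 := by linarith
  have hC : 0 < C := lt_of_lt_of_le one_pos H.hC
  have hC1 := H.hC
  set s := p - 1/2 with hsdef
  have hx4 : |x - p| < s / 4 := by
    refine lt_of_lt_of_le hx ?_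
    rw [div_le_div_iff₀ (by positivity) (by norm_num)]
    nlinarith
  -- the points between
  have hbet : ∀ y ∈ uIcc p x, 1/2 < y ∧ y < 1 ∧ s / 2 ≤ y - 1/2 := by
    intro y hy
    have hy1 : |y - p| ≤ |x - p| := abs_sub_left_of_mem_uIcc hy
    have hy2 := (abs_le.1 hy1).1
    refine ⟨?_, ?_, by linarith⟩
    · exact lt_of_lt_of_le (lt_min h0 hx0) hy.1
    · exact lt_of_le_of_lt hy.2 (max_lt h1 hx1)
  -- summability
  have hsum : Summable fun k : ℕ => co f p k * (x - p) ^ k := by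
    have h3 := G_sum (z := (x : ℂ)) (div_pos hC hs) (co_le H h0 h1) (by
      rw [← Complex.ofReal_sub, Complex.norm_real, Real.norm_eq_abs]
      refine hx.le.trans ?_
      rw [div_le_div_iff₀ (by positivity) (by positivity)]
      field_simp
      norm_num)
    rw [← Complex.summable_ofReal]
    refine h3.congr fun k => ?_
    push_cast
    rfl
  have hlim : Tendsto (fun n => ∑ k ∈ Finset.range (n + 1), co f p k * (x - p) ^ k) atTop
      (𝓝 (f x)) := by
    by_cases hpx : p = x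
    · subst hpx
      have : ∀ n, ∑ k ∈ Finset.range (n + 1), co f p k * (p - p) ^ k = f p := by
        intro n
        rw [Finset.sum_range_succ']
        simp [co]
      simp only [this]
      exact tendsto_const_nhds
    · have hbd : ∀ n : ℕ, |∑ k ∈ Finset.range (n + 1), co f p k * (x - p) ^ k - f x| ≤
          C * (1 / 2) ^ (n + 1) := by
        intro n
        obtain ⟨y, hy, h⟩ := tay hpx (fun y hy => H.smooth y (hbet y hy).1 (hbet y hy).2.1) n
        have hyI : y ∈ uIcc p x := uIoo_subset_uIcc_self hy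
        obtain ⟨hy0, hy1, hy2⟩ := hbet y hyI
        rw [abs_sub_comm, h, abs_mul, abs_pow]
        have h3 := co_le H hy0 hy1 (n + 1)
        have h4 : y - 1/2 ≤ 1 := by linarith
        have h5 : (y - 1/2) ^ β ≤ 1 := Real.rpow_le_one (by linarith) h4 H.hβ
        have h6 : (C / (y - 1/2)) * |x - p| ≤ 1 / 2 := by
          have h7 : 0 < y - 1/2 := by linarith
          rw [div_mul_eq_mul_div, div_le_iff₀ h7]
          have h8 : |x - p| * (4 * C) < s := (lt_div_iff₀ (by positivity)).1 hx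
          nlinarith
        have hy3 : 0 < y - 1/2 := by linarith
        calc |co f y (n + 1)| * |x - p| ^ (n + 1)
            ≤ ((C * (y - 1/2) ^ β) * (C / (y - 1/2)) ^ (n + 1)) * |x - p| ^ (n + 1) :=
              mul_le_mul_of_nonneg_right h3 (by positivity)
          _ = (C * (y - 1/2) ^ β) * ((C / (y - 1/2)) * |x - p|) ^ (n + 1) := by
              rw [mul_assoc, mul_pow]
          _ ≤ (C * 1) * (1 / 2) ^ (n + 1) := by
              apply mul_le_mul (mul_le_mul_of_nonneg_left h5 hC.le)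
                (pow_le_pow_left₀ (by positivity) h6 _) (by positivity) (by positivity)
          _ = _ := by rw [mul_one]
      rw [tendsto_iff_norm_sub_tendsto_zero]
      refine squeeze_zero (fun n => norm_nonneg _) hbd ?_
      have h3 : Tendsto (fun n : ℕ => ((1 : ℝ) / 2) ^ (n + 1)) atTop (𝓝 0) :=
        (tendsto_pow_atTop_nhds_zero_of_lt_one (by norm_num) (by norm_num)).comp
          (tendsto_add_atTop_nat 1)
      have h4 := h3.const_mul C
      rwa [mul_zero] at h4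
  have hval : ∑' k : ℕ, co f p k * (x - p) ^ k = f x := by
    have h3 := hsum.hasSum.tendsto_sum_nat
    have h4 := h3.comp (tendsto_add_atTop_nat 1)
    exact tendsto_nhds_unique h4 hlim
  unfold G
  rw [← hval, Complex.ofReal_tsum]
  refine tsum_congr fun k => ?_
  push_cast
  rfl

/-- two series agree -/
theorem G_agree (H : Hyp f C β) {p q : ℝ} (h0 : 1/2 < p) (h1 : p < 1)
    (g0 : 1/2 < q) (g1 : q < 1) (hpq : |p - q| < (q - 1/2) / (4 * C)) {z : ℂ}
    (hz : z ∈ Metric.ball (p : ℂ) ((p - 1/2) / (4 * C)))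
    (hz' : z ∈ Metric.ball (q : ℂ) ((q - 1/2) / (4 * C))) : G f p z = G f q z := by
  have hs : 0 < p - 1/2 := by linarith
  have hC : 0 < C := lt_of_lt_of_le one_pos H.hC
  set U := Metric.ball (p : ℂ) ((p - 1/2) / (4 * C)) ∩ Metric.ball (q : ℂ) ((q - 1/2) / (4 * C))
    with hU
  have hUo : IsOpen U := Metric.isOpen_ball.inter Metric.isOpen_ball
  have hUc : IsPreconnected U := ((convex_ball _ _).inter (convex_ball _ _)).isPreconnected
  have hpU : (p : ℂ) ∈ U := by
    refine ⟨Metric.mem_ball_self (by positivity), ?_⟩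
    rw [Metric.mem_ball, dist_eq_norm, ← Complex.ofReal_sub, Complex.norm_real, Real.norm_eq_abs]
    exact hpq
  have hA : AnalyticOnNhd ℂ (G f p) U :=
    ((G_hol H h0 h1).mono inter_subset_left).analyticOnNhd hUo
  have hB : AnalyticOnNhd ℂ (G f q) U :=
    ((G_hol H g0 g1).mono inter_subset_right).analyticOnNhd hUo
  refine hA.eqOn_of_preconnected_of_frequently_eq hB hUc hpU ?_ ⟨hz, hz'⟩
  -- frequently equal
  have ht : Tendsto (fun x : ℝ => (x : ℂ)) (𝓝[≠] p) (𝓝[≠] (p : ℂ)) := by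
    apply tendsto_nhdsWithin_of_tendsto_nhds_of_eventually_within
    · exact (Complex.continuous_ofReal.tendsto p).mono_left nhdsWithin_le_nhds
    · filter_upwards [self_mem_nhdsWithin] with x hx
      intro h
      exact hx (Complex.ofReal_injective h)
  refine ht.frequently ?_
  refine Eventually.frequently ?_
  have e0 : ∀ᶠ x : ℝ in 𝓝[≠] p, 1/2 < x := nhdsWithin_le_nhds (lt_mem_nhds h0)
  have e1 : ∀ᶠ x : ℝ in 𝓝[≠] p, x < 1 := nhdsWithin_le_nhds (gt_mem_nhds h1)
  have e2 : ∀ᶠ x : ℝ in 𝓝[≠] p, |x - p| < (p - 1/2) / (4 * C) := by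
    apply nhdsWithin_le_nhds
    have hc : Continuous fun x : ℝ => |x - p| := by fun_prop
    apply (hc.tendsto p).eventually_lt_const
    rw [sub_self, abs_zero]
    positivity
  have e3 : ∀ᶠ x : ℝ in 𝓝[≠] p, |x - q| < (q - 1/2) / (4 * C) := by
    apply nhdsWithin_le_nhds
    have hc : Continuous fun x : ℝ => |x - q| := by fun_prop
    exact (hc.tendsto p).eventually_lt_const hpq
  filter_upwards [e0, e1, e2, e3] with x x0 x1 x2 x3
  rw [G_real H h0 h1 x0 x1 x2, G_real H g0 g1 x0 x1 x3]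

/-- the sector -/
def sct (c : ℝ) : Set ℂ := {z | 1/2 < z.re ∧ z.re < 1 ∧ |z.im| < c * (z.re - 1/2)}

/-- the continuation -/
noncomputable def K (f : ℝ → ℝ) (z : ℂ) : ℂ := G f z.re z

theorem K_diff (H : Hyp f C β) : DifferentiableOn ℂ (K f) (sct (1 / (8 * C))) := by
  have hC : 0 < C := lt_of_lt_of_le one_pos H.hC
  intro w hw
  obtain ⟨hw3, hw4, hw1⟩ := hw
  have hs : 0 < w.re - 1/2 := by linarith
  have hlt : (1 / (8 * C)) * (w.re - 1/2) < (w.re - 1/2) / (4 * C) := by
    rw [div_mul_eq_mul_div, one_mul, div_lt_div_iff₀ (by positivity) (by positivity)]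
    nlinarith
  have hwb : w ∈ Metric.ball (w.re : ℂ) ((w.re - 1/2) / (4 * C)) := by
    rw [Metric.mem_ball, dist_eq_norm, norm_sub_re]
    exact hw1.trans hlt
  have hd : DifferentiableAt ℂ (G f w.re) w :=
    (G_hol H hw3 hw4).differentiableAt (Metric.isOpen_ball.mem_nhds hwb)
  refine DifferentiableAt.differentiableWithinAt (hd.congr_of_eventuallyEq ?_)
  have c1 : Continuous fun z : ℂ => |z.im| := by fun_prop
  have c2 : Continuous fun z : ℂ => (1 / (8 * C)) * (z.re - 1/2) := by fun_prop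
  have c3 : Continuous fun z : ℂ => z.re := Complex.continuous_re
  have e1 : ∀ᶠ z in 𝓝 w, |z.im| < (1 / (8 * C)) * (z.re - 1/2) :=
    (isOpen_lt c1 c2).mem_nhds hw1
  have e2 : ∀ᶠ z in 𝓝 w, 1/2 < z.re := (isOpen_lt continuous_const c3).mem_nhds hw3
  have e3 : ∀ᶠ z in 𝓝 w, z.re < 1 := (isOpen_lt c3 continuous_const).mem_nhds hw4
  have e4 : ∀ᶠ z in 𝓝 w, z ∈ Metric.ball (w.re : ℂ) ((w.re - 1/2) / (4 * C)) :=
    Metric.isOpen_ball.mem_nhds hwb
  have e5 : ∀ᶠ z : ℂ in 𝓝 w, |z.re - w.re| < (w.re - 1/2) / (4 * C) := by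
    have hc : Continuous fun z : ℂ => |z.re - w.re| := by fun_prop
    apply (hc.tendsto w).eventually_lt_const
    simp only [sub_self, abs_zero]
    positivity
  filter_upwards [e1, e2, e3, e4, e5] with z z1 z2 z3 z4 z5
  have hsz : 0 < z.re - 1/2 := by linarith
  refine G_agree H z2 z3 hw3 hw4 z5 ?_ z4
  rw [Metric.mem_ball, dist_eq_norm, norm_sub_re]
  refine z1.trans ?_
  rw [div_mul_eq_mul_div, one_mul, div_lt_div_iff₀ (by positivity) (by positivity)]
  nlinarith

theorem K_real (H : Hyp f C β) {p : ℝ} (h0 : 1/2 < p) (h1 : p < 1) : K f p = f p := by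
  have hs : 0 < p - 1/2 := by linarith
  have hC : 0 < C := lt_of_lt_of_le one_pos H.hC
  unfold K
  rw [Complex.ofReal_re]
  apply G_real H h0 h1 h0 h1
  rw [sub_self, abs_zero]
  positivity

/-- comparison with the value at the real part -/
theorem K_near (H : Hyp f C β) {z : ℂ} {c : ℝ} (hc : 0 < c) (hc1 : c ≤ 1 / (8 * C))
    (hz : z ∈ sct c) : ‖K f z - f z.re‖ ≤ 2 * C ^ 2 * c * (z.re - 1/2) ^ β := by
  have hC : 0 < C := lt_of_lt_of_le one_pos H.hC
  have hC1 := H.hC
  obtain ⟨z2, z3, z1⟩ := hz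
  set p := z.re with hp
  have hs : 0 < p - 1/2 := by linarith
  set s := p - 1/2 with hsdef
  set u : ℂ := z - p with hu
  have hun : ‖u‖ ≤ c * s := by
    rw [hu, hp, norm_sub_re]
    exact z1.le
  have h8 : C * c ≤ 1 / 8 := by
    have := mul_le_mul_of_nonneg_left hc1 hC.le
    have e : C * (1 / (8 * C)) = 1 / 8 := by field_simp
    linarith
  have hsum : Summable fun k : ℕ => (co f p k : ℂ) * (z - p) ^ k := by
    apply G_sum (div_pos hC hs) (co_le H z2 z3)
    rw [← hu]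
    refine hun.trans ?_
    have e : 1 / (2 * (C / s)) = s / (2 * C) := by field_simp
    rw [e, le_div_iff₀ (by positivity)]
    nlinarith
  have hsplit : K f z = (f p : ℂ) + ∑' k : ℕ, (co f p (k + 1) : ℂ) * u ^ (k + 1) := by
    unfold K G
    rw [← hp, ← hsum.sum_add_tsum_nat_add 1]
    congr 1
    rw [Finset.sum_range_one]
    simp only [co, iteratedDeriv_zero, Nat.factorial, ← hu]
    push_cast
    ring
  rw [hsplit, add_sub_cancel_left]
  have h4 : (C / s) * ‖u‖ ≤ C * c := by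
    rw [div_mul_eq_mul_div, div_le_iff₀ hs]
    nlinarith
  have hg : HasSum (fun k : ℕ => (C * s ^ β * (C * c)) * (1 / 2 : ℝ) ^ k)
      ((C * s ^ β * (C * c)) * 2) := hasSum_geometric_two.mul_left _
  refine (tsum_of_norm_bounded hg (fun k => ?_)).trans (le_of_eq (by ring))
  rw [norm_mul, norm_pow, Complex.norm_real, Real.norm_eq_abs]
  have h3 := co_le H z2 z3 (k + 1)
  calc |co f p (k + 1)| * ‖u‖ ^ (k + 1) ≤ ((C * s ^ β) * (C / s) ^ (k + 1)) * ‖u‖ ^ (k + 1) :=
        mul_le_mul_of_nonneg_right h3 (by positivity)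
    _ = C * s ^ β * ((C / s) * ‖u‖) ^ (k + 1) := by rw [mul_assoc, mul_pow]
    _ ≤ C * s ^ β * (C * c) ^ (k + 1) := by
        apply mul_le_mul_of_nonneg_left _ (by positivity)
        exact pow_le_pow_left₀ (by positivity) h4 _
    _ = (C * s ^ β * (C * c)) * (C * c) ^ k := by rw [pow_succ]; ring
    _ ≤ (C * s ^ β * (C * c)) * (1 / 2) ^ k := by
        apply mul_le_mul_of_nonneg_left _ (by positivity)
        exact pow_le_pow_left₀ (by positivity) (by linarith) _

/-- the theorem -/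
theorem main (H : Hyp f C β) {c0 : ℝ} (hc0 : 0 < c0) (hβ : β ≤ 1)
    (hf : ∀ p : ℝ, 1/2 < p → p < 1 → c0 * (p - 1/2) ^ β ≤ f p) :
    ∃ (c C' : ℝ), 0 < c ∧ 0 < C' ∧ DifferentiableOn ℂ (K f) (sct c) ∧
    (∀ p : ℝ, 1/2 < p → p < 1 → K f (p : ℂ) = (f p : ℂ)) ∧
    ∀ z ∈ sct c, c * ‖z - 1/2‖ ^ β ≤ ‖K f z‖ ∧ ‖K f z‖ ≤ C' * ‖z - 1/2‖ ^ β := by
  have hC : 0 < C := lt_of_lt_of_le one_pos H.hC
  have hC1 := H.hC
  obtain ⟨c, hc⟩ : ∃ c : ℝ, c = min (1 / (8 * C)) (min (c0 / (4 * C ^ 2)) (c0 / 4)) := ⟨_, rfl⟩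
  have k0 : 0 < c := by
    rw [hc]
    exact lt_min (by positivity) (lt_min (by positivity) (by positivity))
  have k1 : c ≤ 1 / (8 * C) := by rw [hc]; exact min_le_left _ _
  have k2 : c ≤ c0 / (4 * C ^ 2) := by
    rw [hc]; exact (min_le_right _ _).trans (min_le_left _ _)
  have k3 : c ≤ c0 / 4 := by
    rw [hc]; exact (min_le_right _ _).trans (min_le_right _ _)
  have k4 : 2 * C ^ 2 * c ≤ c0 / 2 := by
    have h1 := mul_le_mul_of_nonneg_left k2 (by positivity : 0 ≤ 2 * C ^ 2)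
    have e : 2 * C ^ 2 * (c0 / (4 * C ^ 2)) = c0 / 2 := by field_simp; norm_num
    linarith
  have k5 : 2 * C ^ 2 * c ≤ C := by
    have h1 := mul_le_mul_of_nonneg_left k1 (by positivity : 0 ≤ 2 * C ^ 2)
    have e : 2 * C ^ 2 * (1 / (8 * C)) = C / 4 := by field_simp; norm_num
    linarith
  have k6 : c ≤ 1 := by
    refine k1.trans ?_
    rw [div_le_one (by positivity)]
    linarith
  refine ⟨c, 2 * C, k0, by positivity, (K_diff H).mono ?_, fun p h0 h1 => K_real H h0 h1, ?_⟩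
  · rintro z ⟨z1, z2, z3⟩
    exact ⟨z1, z2, z3.trans_le (mul_le_mul_of_nonneg_right k1 (by linarith))⟩
  · intro z hz
    have hn := K_near H k0 k1 hz
    obtain ⟨z1, z2, z3⟩ := hz
    have hs : 0 < z.re - 1/2 := by linarith
    have hf1 := hf z.re z1 z2
    have hf2 : |f z.re| ≤ C * (z.re - 1/2) ^ β := by
      have := co_le H z1 z2 0
      simpa [co] using this
    obtain ⟨s, hs'⟩ : ∃ s : ℝ, s = z.re - 1/2 := ⟨_, rfl⟩
    rw [← hs'] at hs hf1 hf2 hn z3
    have hsb : 0 < s ^ β := by positivity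
    have e1 : (z - 1/2).re = s := by
      rw [Complex.sub_re, hs']
      norm_num
    have e2 : (z - 1/2).im = z.im := by
      rw [Complex.sub_im]
      norm_num
    have n1 : s ≤ ‖z - 1/2‖ := by
      have h3 := Complex.abs_re_le_norm (z - 1/2)
      rw [e1] at h3
      exact (le_abs_self s).trans h3
    have n2 : ‖z - 1/2‖ ≤ 2 * s := by
      have h3 := Complex.norm_le_abs_re_add_abs_im (z - 1/2)
      rw [e1, e2, abs_of_pos hs] at h3
      have : c * s ≤ 1 * s := mul_le_mul_of_nonneg_right k6 hs.le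
      linarith
    have m1 : s ^ β ≤ ‖z - 1/2‖ ^ β := Real.rpow_le_rpow hs.le n1 H.hβ
    have m2 : ‖z - 1/2‖ ^ β ≤ 2 * s ^ β := by
      refine (Real.rpow_le_rpow (norm_nonneg _) n2 H.hβ).trans ?_
      rw [Real.mul_rpow (by norm_num) hs.le]
      apply mul_le_mul_of_nonneg_right _ hsb.le
      have := Real.rpow_le_rpow_of_exponent_le (show (1:ℝ) ≤ 2 by norm_num) hβ
      rwa [Real.rpow_one] at this
    have t1 : ‖(f z.re : ℂ)‖ = |f z.re| := by rw [Complex.norm_real, Real.norm_eq_abs]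
    have t2 : ‖(f z.re : ℂ)‖ ≤ ‖K f z‖ + ‖K f z - f z.re‖ := by
      have := norm_sub_le (K f z) (K f z - f z.re)
      rwa [sub_sub_cancel] at this
    have t3 : ‖K f z‖ ≤ ‖(f z.re : ℂ)‖ + ‖K f z - f z.re‖ := by
      have := norm_add_le (f z.re : ℂ) (K f z - f z.re)
      rwa [add_sub_cancel] at this
    rw [t1] at t2 t3
    have t4 : f z.re ≤ |f z.re| := le_abs_self _
    have t5 : 2 * C ^ 2 * c * s ^ β ≤ c0 / 2 * s ^ β := mul_le_mul_of_nonneg_right k4 hsb.le
    have t6 : 2 * C ^ 2 * c * s ^ β ≤ C * s ^ β := mul_le_mul_of_nonneg_right k5 hsb.le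
    constructor
    · have : c * ‖z - 1/2‖ ^ β ≤ c0 / 4 * (2 * s ^ β) :=
        mul_le_mul k3 m2 (by positivity) (by positivity)
      linarith
    · have : 2 * C * s ^ β ≤ 2 * C * ‖z - 1/2‖ ^ β := mul_le_mul_of_nonneg_left m1 (by positivity)
      linarith

end

end Pool.Agent.H29.SecT
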