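import Pool.Agent.H29.TH.Ann
import Pool.Graph.R_seed8.Y21.NE.Tree

/-!
The bound for sets of edges which matter together, in a box, and the sum over all the sets.
-/

set_option autoImplicit false

namespace Pool.Agent.H29.TH

open H974 hiding WW
open H12S H389NS Finset
open Pool.Agent.NH39 (dd sum_dist)
open Pool.Agent.NH39.W (Dl wt WW WW_one wt_one wt_pos wt_anti wt_doub wt_ratio psi psi_le psi_nn
  sum1d lam_nonneg lam_le_one)

theorem eight_le_WW : (8:ℝ) ≤ WW := by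
  unfold WW
  have : (1:ℝ) ≤ (8:ℝ) ^ (5/4 : ℝ) := Real.one_le_rpow (by norm_num) (by norm_num)
  linarith

theorem wf_wt (q : ℝ) : Wf (wt q) (wt q) WW where
  one := wt_one q
  pos := fun _ hr => wt_pos q hr
  mono := fun _ _ hr hs => wt_anti q hr hs
  dbl := fun _ _ hr hs h8 => wt_doub q hr hs h8
  rel := fun r s hr hs => by
    have h1 := WW_one
    have h2 := mul_pos (wt_pos q hr) (wt_pos q (hr.trans hs))
    nlinarith

theorem wf_vt {p : ℝ} (h1 : 1/2 ≤ p) (h2 : p ≤ 1) : Wf (wt p) (vt p) WW where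
  one := vt_one h1 h2
  pos := fun _ hr => vt_pos hr
  mono := fun _ _ hr hs => vt_anti hr hs
  dbl := fun r s hr hs h8 => by
    have h3 := vt_doub h1 hr hs (by norm_num : 1 ≤ 8) h8
    have h4 := eight_le_WW
    have h5 := vt_pos (p := p) (hr.trans hs)
    push_cast at h3
    nlinarith
  rel := fun r s hr hs => by
    have hr0 : (0:ℝ) < r := by exact_mod_cast hr
    have hs0 : (0:ℝ) < s := by exact_mod_cast (by omega : 0 < s)
    have hrs : (r:ℝ) ≤ s := by exact_mod_cast hs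
    have hW := WW_one
    have w1 := wt_pos p hr
    have w2 := wt_pos p (hr.trans hs)
    have v1 := vt_pos (p := p) hr
    have v2 := vt_pos (p := p) (hr.trans hs)
    have hl := lam_nonneg p
    have h3 := wt_ratio (q := p) hr hs
    have h4 := vt_rel h1 hr hs
    have hx1 : (r:ℝ) / s ≤ 1 := (div_le_one hs0).2 hrs
    have h5 : ((r:ℝ) / s) ^ (5/4 : ℝ) ≤ ((r:ℝ) / s) ^ (5/48 : ℝ) :=
      Real.rpow_le_rpow_of_exponent_ge (by positivity) hx1 (by norm_num)
    have h6 : (1 + |p - 1/2| ^ (4/3 : ℝ) * r) / (1 + |p - 1/2| ^ (4/3 : ℝ) * s) ≤ 1 := by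
      rw [div_le_one (by positivity)]
      have := mul_le_mul_of_nonneg_left hrs hl
      linarith
    have h7 : wt p s / wt p r ≤ ((r:ℝ) / s) ^ (5/48 : ℝ) := by
      rw [h3]
      exact (mul_le_of_le_one_right (by positivity) h6).trans h5
    rw [div_le_iff₀ w1] at h7
    have hnn : 0 ≤ ((r:ℝ) / s) ^ (5/48 : ℝ) := by positivity
    calc wt p s * vt p r ≤ (((r:ℝ) / s) ^ (5/48 : ℝ) * wt p r) * vt p r :=
          mul_le_mul_of_nonneg_right h7 v1.le
      _ = wt p r * (((r:ℝ) / s) ^ (5/48 : ℝ) * vt p r) := by ring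
      _ ≤ wt p r * vt p s := mul_le_mul_of_nonneg_left h4 w1.le
      _ ≤ WW * (wt p r * vt p s) := by
          have := mul_pos w1 v2
          nlinarith

theorem mem_boxE_dd {M : ℕ} {x : Edg} (h : x ∈ boxE M) : |x.1| ≤ M ∧ |x.2.1| ≤ M := by
  obtain ⟨a, b, _ | _⟩ := x
  · unfold boxE at h
    rw [mem_RE_false] at h
    simp only [abs_le]
    omega
  · unfold boxE at h
    rw [mem_RE_true] at h
    simp only [abs_le]
    omega

theorem dd_box {M : ℕ} {x y : Edg} (hx : x ∈ boxE M) (hy : y ∈ boxE M) : dd x y ≤ 2 * M := by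
  have h1 := mem_boxE_dd hx
  have h2 := mem_boxE_dd hy
  simp only [abs_le] at h1 h2
  unfold dd
  omega

theorem oo_mem {M : ℕ} (hM : 1 ≤ M) : oo ∈ boxE M := by
  unfold oo boxE
  rw [mem_RE_true]
  omega

theorem kset : ∃ C : ℝ, 1 ≤ C ∧ ∀ p : ℝ, 1/2 ≤ p → p ≤ 1 → ∀ M L : ℕ, 1 ≤ M → 3 * M ≤ L →
    KSet dd (boxE M) (boxE L) oo (2 * M) p (wt p) (vt p) (Dsr L) C WW := by
  obtain ⟨C1, hC1, hpl⟩ := Pool.Agent.NH39.W.pl
  obtain ⟨C2, hC2, hba⟩ := barm_le
  refine ⟨max C1 C2, le_max_of_le_left hC1, ?_⟩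
  intro p hp1 hp2 M L hM hL
  have ok := okq (q := p) (by linarith) hp2
  refine ⟨dd_self, dd_comm, fun a b c => dd_tri a b c, by omega, by linarith, hp2, wf_wt p,
    wf_vt hp1 hp2, ?_, ?_, le_max_of_le_left hC1, WW_one⟩
  · intro x hx r D hr hrD hDN
    have hx' := mem_boxE_dd hx
    have b1 : |x.1| + D ≤ L := by omega
    have b2 : |x.2.1| + D ≤ L := by omega
    refine ⟨fun F => A4a (ps x) r D (↑F : Set Edg), fun F F' h => A4_local h, ?_, ?_⟩
    · intro S F _ _ hxS _ hS h0 hD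
      rcases hD with hD | hD
      · exact dl_w hr hrD b1 b2 h0 hxS hS hD
      · have hne : x ≠ oo := by
          intro h
          rw [h, dd_self] at h0
          omega
        exact dl_w hr hrD b1 b2 h0 (mem_erase.2 ⟨hne, hxS⟩)
          (fun y hy => hS y (mem_of_mem_erase hy)) hD
    · have h1 := Pool.Agent.NH39.NC.le_hQ (d := r) ok (blk_sub_box b1 b2)
      have h2 := hpl p (by linarith) hp2 r D hr hrD
      refine (h1.trans h2).trans (mul_le_mul_of_nonneg_right (le_max_left _ _) ?_)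
      have := wt_pos p hr
      have := wt_pos p (hr.trans hrD)
      positivity
  · intro r D hr hrD hDN
    refine ⟨Cr r D, fun F F' h => Cr_local h, ?_, ?_⟩
    · intro S F _ _ _ hS hD
      rcases hD with hD | hD
      · exact dl_v hrD (by omega) hS hD
      · exact dl_v hrD (by omega) (fun y hy => hS y (mem_of_mem_erase hy)) hD
    · refine ((pr_Cr (by linarith) hp2 (by omega) hrD).trans (hba p hp1 hp2 r D hr hrD)).trans
        (mul_le_mul_of_nonneg_right (le_max_right _ _) ?_)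
      have := vt_pos (p := p) hr
      have := vt_pos (p := p) (hr.trans hrD)
      positivity

/-- Sum of the kernel. -/
theorem kern_box {p : ℝ} (h1 : 1/2 < p) (h2 : p ≤ 1) {M : ℕ} {z : Edg}
    (hz : z ∈ boxE M) :
    ∑ y ∈ boxE M, psi (wt p) (2 * M) (dd y z) ≤ 400 * WW * (p - 1/2)⁻¹ := by
  have hW := WW_one
  have hp0 : 0 < p - 1/2 := by linarith
  have hl := lam_nonneg p
  have hl1 := lam_le_one (q := p) (by linarith) h2
  obtain ⟨l, hl'⟩ : ∃ l : ℝ, l = |p - 1/2| ^ (4/3 : ℝ) := ⟨_, rfl⟩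
  rw [← hl'] at hl hl1
  have s1 : ∑ y ∈ boxE M, psi (wt p) (2 * M) (dd y z) ≤
      18 * ∑ b ∈ range (2 * M + 1), ((b:ℝ) + 1) * psi (wt p) (2 * M) b := by
    have h := sum_dist z (2 * M) (boxE M) (fun f hf => dd_box hz hf)
      (fun b => psi (wt p) (2 * M) b) (fun b => psi_nn p _ b)
    refine le_trans (le_of_eq ?_) h
    exact Finset.sum_congr rfl (fun y _ => by rw [dd_comm])
  have s2 : ∀ b ∈ range (2 * M + 1), ((b:ℝ) + 1) * psi (wt p) (2 * M) b ≤
      2 * WW * (((b:ℝ) + 1) ^ (-(1/4) : ℝ) / (1 + l * ((b:ℝ) + 1))) := by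
    intro b hb
    rw [Finset.mem_range] at hb
    have h3 := psi_le (q := p) (by linarith) h2 (N := 2 * M) (s := b) (t := b + 1) (by omega)
      (by omega)
    rw [← hl'] at h3
    push_cast at h3
    have hb0 : (0:ℝ) < (b:ℝ) + 1 := by positivity
    have e : ((b:ℝ) + 1) * (((b:ℝ) + 1) ^ (-(5/4) : ℝ)) = ((b:ℝ) + 1) ^ (-(1/4) : ℝ) := by
      nth_rewrite 1 [← Real.rpow_one ((b:ℝ) + 1)]
      rw [← Real.rpow_add hb0]
      norm_num
    calc ((b:ℝ) + 1) * psi (wt p) (2 * M) b ≤ ((b:ℝ) + 1) *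
        (2 * WW * (((b:ℝ) + 1) ^ (-(5/4) : ℝ) / (1 + l * ((b:ℝ) + 1)))) :=
          mul_le_mul_of_nonneg_left h3 hb0.le
      _ = 2 * WW * ((((b:ℝ) + 1) * (((b:ℝ) + 1) ^ (-(5/4) : ℝ))) / (1 + l * ((b:ℝ) + 1))) := by
          ring
      _ = _ := by rw [e]
  have hlp : 0 < l := by
    rw [hl', abs_of_pos hp0]; positivity
  have s3 := (sum1d hl hl1 (2 * M + 1)).2 hlp
  have e1 : l ^ (3/4 : ℝ) = p - 1/2 := by
    rw [hl', ← Real.rpow_mul (abs_nonneg _), abs_of_pos hp0]; norm_num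
  rw [e1] at s3
  have s4 : ∑ b ∈ range (2 * M + 1), ((b:ℝ) + 1) * psi (wt p) (2 * M) b ≤
      2 * WW * (10 * (p - 1/2)⁻¹) := by
    refine (Finset.sum_le_sum s2).trans ?_
    rw [← Finset.mul_sum]
    exact mul_le_mul_of_nonneg_left s3 (by positivity)
  have hi : 0 < (p - 1/2)⁻¹ := by positivity
  calc ∑ y ∈ boxE M, psi (wt p) (2 * M) (dd y z) ≤ 18 * (2 * WW * (10 * (p - 1/2)⁻¹)) :=
        s1.trans (mul_le_mul_of_nonneg_left s4 (by norm_num))
    _ ≤ _ := by nlinarith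

/-- The sum over the sets with the root. -/
theorem tree_sum : ∃ B : ℝ, 1 ≤ B ∧ ∀ p : ℝ, 1/2 < p → p ≤ 1 → ∀ M L : ℕ, 1 ≤ M → 3 * M ≤ L →
    ∑ S ∈ (boxE M).powerset.filter (fun S => oo ∈ S),
      ((p - 1/2) / B) ^ S.card * Pr (fun _ => p) (boxE L) (Dsr L S) ≤
        3 * (p - 1/2) * vt p (2 * M) := by
  obtain ⟨C, hC, hk⟩ := kset
  have hW := WW_one
  obtain ⟨a, ha⟩ : ∃ a : ℝ, a = C * WW ^ 2 := ⟨_, rfl⟩
  have ha1 : 1 ≤ a := by
    rw [ha]
    have : 1 ≤ WW ^ 2 := by nlinarith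
    nlinarith
  have ha4 : 1 ≤ a ^ 4 := one_le_pow₀ ha1
  obtain ⟨B, hB⟩ : ∃ B : ℝ, B = 1200 * WW * a ^ 4 := ⟨_, rfl⟩
  have hB1 : 1 ≤ B := by
    rw [hB]
    nlinarith
  refine ⟨B, hB1, ?_⟩
  intro p hp1 hp2 M L hM hL
  have hp0 : 0 < p - 1/2 := by linarith
  have H := hk p hp1.le hp2 M L hM hL
  have hv : 0 < vt p (2 * M) := vt_pos (by omega)
  obtain ⟨Y, hY⟩ : ∃ Y : ℝ, Y = (p - 1/2) / B := ⟨_, rfl⟩
  have hY0 : 0 ≤ Y := by rw [hY]; positivity
  obtain ⟨K, hK⟩ : ∃ K : ℝ, K = a ^ 4 * (400 * WW * (p - 1/2)⁻¹) := ⟨_, rfl⟩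
  have hok := H.ok
  have h3 : 3 * K * Y ≤ 1 := by
    obtain ⟨s, hs⟩ : ∃ s : ℝ, s = p - 1/2 := ⟨_, rfl⟩
    rw [hK, hY, hB, ← hs]
    rw [← hs] at hp0
    apply le_of_eq
    field_simp
    norm_num
  have hden : 0 < a ^ 4 * vt p (2 * M) := by positivity
  have key := Pool.Agent.Y21.NE.tree (boxE M) (fun y z => a ^ 4 * psi (wt p) (2 * M) (dd y z))
    (fun S x => if x = oo then Pr (fun _ => p) (boxE L) (Dsr L S) / (a ^ 4 * vt p (2 * M)) else 0)
    K Y (fun y z => mul_nonneg (by positivity) (psi_nn p _ _))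
    (fun z hz => by
      rw [← Finset.mul_sum, hK]
      exact mul_le_mul_of_nonneg_left (kern_box hp1 hp2 hz) (by positivity))
    hY0 h3
    (fun S hS x hx => by
      by_cases hxo : x = oo
      · subst hxo
        obtain ⟨par, rk, t1, t2⟩ := key2 H ha1 (le_of_eq ha.symm)
          (fun x hx y hy => dd_box hx hy) hS hx
        refine ⟨par, rk, t1, ?_⟩
        rw [if_pos rfl, div_le_iff₀ hden, Finset.prod_mul_distrib, Finset.prod_const,
          Finset.card_erase_of_mem hx]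
        refine t2.trans (le_of_eq ?_)
        have hc : 1 ≤ S.card := Finset.card_pos.2 ⟨oo, hx⟩
        obtain ⟨m, hm⟩ : ∃ m, S.card = m + 1 := ⟨S.card - 1, by omega⟩
        rw [hm, Nat.add_sub_cancel, ← pow_mul]
        ring
      · refine ⟨fun _ => x, fun y => if y = x then 0 else 1, ?_, ?_⟩
        · intro y _ hyx
          refine ⟨hx, ?_⟩
          simp [hyx]
        · rw [if_neg hxo]
          exact Finset.prod_nonneg fun y _ => mul_nonneg (by positivity) (psi_nn p _ _))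
    oo (oo_mem hM)
  simp only [if_true] at key
  rw [← hY]
  have e : ∑ S ∈ (boxE M).powerset.filter (fun S => oo ∈ S),
      Y ^ S.card * Pr (fun _ => p) (boxE L) (Dsr L S) =
      (a ^ 4 * vt p (2 * M)) * ∑ S ∈ (boxE M).powerset.filter (fun S => oo ∈ S),
        Y ^ S.card * (Pr (fun _ => p) (boxE L) (Dsr L S) / (a ^ 4 * vt p (2 * M))) := by
    rw [Finset.mul_sum]
    apply Finset.sum_congr rfl
    intro S _
    field_simp
  rw [e]
  refine (mul_le_mul_of_nonneg_left key hden.le).trans ?_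
  have h4 : a ^ 4 * Y ≤ p - 1/2 := by
    rw [hY, ← mul_div_assoc, div_le_iff₀ (by linarith), mul_comm]
    apply mul_le_mul_of_nonneg_left _ hp0.le
    rw [hB]
    nlinarith
  nlinarith

end Pool.Agent.H29.TH
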